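import Pool.Agent.H499.PW.Quot

/-! The distance of the traces of two `ℓ`-adic representations is attained at the places of `P`. -/

set_option autoImplicit false
set_option linter.all false

namespace Pool.Agent.H499.PW

open Module IsLocalRing Polynomial Matrix NumberField IsDedekindDomain
open Pool.Agent.W401.Cheb (GK IsFrob IsInert)
open Pool.Agent.H499.CM

variable {K : Type} [Field K] [NumberField K] {ℓ : ℕ} [Fact ℓ.Prime] {n : ℕ}

/-- the conclusion of finite determination -/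
def Determines (K : Type) [Field K] [NumberField K] (ℓ n : ℕ) (S : Set (HeightOneSpectrum (𝓞 K)))
    (U : Subgroup (GK K)) (P : Finset (HeightOneSpectrum (𝓞 K))) : Prop :=
  ∀ (A : Type) [CommRing A] [IsLocalRing A], (∀ a b : A, a ∣ b ∨ b ∣ a) → (ℓ : A) ∈ maximalIdeal A →
    ∀ r r' : GK K →* GL (Fin n) A, Adm S U r → Adm S U r' →
      (∀ v ∈ P, ∀ σ, IsFrob v σ → (r σ⁻¹ : Matrix (Fin n) (Fin n) A).trace =
        (r' σ⁻¹ : Matrix (Fin n) (Fin n) A).trace) →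
      ∀ σ, (r σ : Matrix (Fin n) (Fin n) A).trace = (r' σ : Matrix (Fin n) (Fin n) A).trace

/-- reduction modulo an element -/
noncomputable def redC (N : GK K →* Matrix (Fin n) (Fin n) (OO ℓ)) (c : OO ℓ) :
    GK K →* GL (Fin n) (OO ℓ ⧸ Ideal.span {c}) :=
  (((Ideal.Quotient.mk (Ideal.span {c})).mapMatrix : Matrix (Fin n) (Fin n) (OO ℓ) →+*
    Matrix (Fin n) (Fin n) (OO ℓ ⧸ Ideal.span {c})).toMonoidHom.comp N).toHomUnits

theorem redC_apply (N : GK K →* Matrix (Fin n) (Fin n) (OO ℓ)) (c : OO ℓ) (g : GK K) :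
    (redC N c g : Matrix (Fin n) (Fin n) (OO ℓ ⧸ Ideal.span {c})) = (N g).map (Ideal.Quotient.mk (Ideal.span {c})) :=
  rfl

theorem redC_trace (N : GK K →* Matrix (Fin n) (Fin n) (OO ℓ)) (c : OO ℓ) (g : GK K) :
    (redC N c g : Matrix (Fin n) (Fin n) (OO ℓ ⧸ Ideal.span {c})).trace =
      Ideal.Quotient.mk (Ideal.span {c}) (N g).trace := by
  rw [redC_apply, Matrix.trace, Matrix.trace]
  exact (map_sum (Ideal.Quotient.mk (Ideal.span {c})) _ _).symm

theorem mk_eq_iff (c x y : OO ℓ) : Ideal.Quotient.mk (Ideal.span {c}) x = Ideal.Quotient.mk (Ideal.span {c}) y ↔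
    ‖(x : PadicAlgCl ℓ) - y‖ ≤ ‖(c : PadicAlgCl ℓ)‖ := by
  rw [← sub_eq_zero, ← map_sub, Ideal.Quotient.eq_zero_iff_mem, Ideal.mem_span_singleton, dvd_iff]
  rfl

theorem res_coeff {ρ : GK K →* GL (Fin n) (PadicAlgCl ℓ)} {N : GK K →* Matrix (Fin n) (Fin n) (OO ℓ)}
    (h : IntModel ρ N) (σ : GK K) (i : ℕ)
    (hi : ‖((ρ σ : Matrix (Fin n) (Fin n) (PadicAlgCl ℓ)).charpoly - (X - 1) ^ n).coeff i‖ < 1) :
    ‖(((N σ).charpoly - (X - 1) ^ n).coeff i : PadicAlgCl ℓ)‖ < 1 := by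
  have e : (((N σ).charpoly - (X - 1) ^ n).map (algebraMap (OO ℓ) (PadicAlgCl ℓ))) =
      (ρ σ : Matrix (Fin n) (Fin n) (PadicAlgCl ℓ)).charpoly - (X - 1) ^ n := by
    rw [Polynomial.map_sub, h.charpoly, Polynomial.map_pow, Polynomial.map_sub, Polynomial.map_X,
      Polynomial.map_one]
  have e2 := congrArg (fun P : (PadicAlgCl ℓ)[X] => P.coeff i) e
  simp only [Polynomial.coeff_map] at e2
  rw [← e2] at hi
  exact hi

theorem map_res {R R' : Type} [CommRing R] [CommRing R'] (f : R →+* R') (M : Matrix (Fin n) (Fin n) R) (i : ℕ) :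
    ((M.map f).charpoly - (X - 1) ^ n).coeff i = f ((M.charpoly - (X - 1) ^ n).coeff i) := by
  rw [Matrix.charpoly_map]
  have e : M.charpoly.map f - (X - 1) ^ n = (M.charpoly - (X - 1) ^ n).map f := by
    rw [Polynomial.map_sub, Polynomial.map_pow, Polynomial.map_sub, Polynomial.map_X, Polynomial.map_one]
  rw [e, Polynomial.coeff_map]

theorem adm_redC {S : Set (HeightOneSpectrum (𝓞 K))} {U : Subgroup (GK K)}
    {ρ : GK K →* GL (Fin n) (PadicAlgCl ℓ)} {N : GK K →* Matrix (Fin n) (Fin n) (OO ℓ)} (h : IntModel ρ N)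
    (hρ : AdmAdic S U ρ) (c : OO ℓ) (hc0 : c ≠ 0) (hc : ‖(c : PadicAlgCl ℓ)‖ < 1)
    [IsLocalRing (OO ℓ ⧸ Ideal.span {c})] : Adm S U (redC N c) := by
  obtain ⟨h1, h2, h3⟩ := hρ
  refine ⟨?_, fun v hv σ hσ => ?_, fun σ hσ i => ?_⟩
  · have hc0' : (c : PadicAlgCl ℓ) ≠ 0 := fun h => hc0 (Subtype.ext h)
    obtain ⟨m, hm⟩ := exists_dvd_pow (c : PadicAlgCl ℓ) hc0'
    refine Subgroup.isOpen_mono (H₁ := (redRep N m).ker) ?_ (h.isOpen_ker h1 m)
    intro g hg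
    have h4 : (redRep N m g : Matrix (Fin n) (Fin n) (RR ℓ m)) = 1 := by
      rw [show redRep N m g = 1 from hg]
      rfl
    show redC N c g = 1
    apply Units.ext
    rw [redC_apply, Units.val_one]
    ext i j
    have h5 := congrFun (congrFun h4 i) j
    rw [redRep_apply, Matrix.map_apply] at h5
    rw [Matrix.map_apply]
    have h6 : (1 : Matrix (Fin n) (Fin n) (RR ℓ m)) i j = mk m ((1 : Matrix (Fin n) (Fin n) (OO ℓ)) i j) := by
      rw [Matrix.one_apply, Matrix.one_apply]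
      split_ifs
      · rw [map_one]
      · rw [map_zero]
    have h7 : (1 : Matrix (Fin n) (Fin n) (OO ℓ ⧸ Ideal.span {c})) i j =
        Ideal.Quotient.mk (Ideal.span {c}) ((1 : Matrix (Fin n) (Fin n) (OO ℓ)) i j) := by
      rw [Matrix.one_apply, Matrix.one_apply]
      split_ifs
      · rw [map_one]
      · rw [map_zero]
    rw [h6, mk_eq] at h5
    rw [h7, mk_eq_iff]
    exact h5.trans hm
  · apply Units.ext
    rw [redC_apply, h.one (h2 v hv σ hσ), Units.val_one, Matrix.map_one _ (map_zero _) (map_one _)]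
  · rw [redC_apply, map_res]
    exact mk_mem_max c hc _ (res_coeff h σ i (h3 σ hσ i))

/-- **The distance of the traces is attained at the places of `P`.** -/
theorem isometry {S : Set (HeightOneSpectrum (𝓞 K))} {U : Subgroup (GK K)} {P : Finset (HeightOneSpectrum (𝓞 K))}
    (hP : Determines K ℓ n S U P) (ρ ρ' : GK K →* GL (Fin n) (PadicAlgCl ℓ)) (hρ : AdmAdic S U ρ)
    (hρ' : AdmAdic S U ρ') (ε : ℝ) (hε : 0 ≤ ε)
    (h : ∀ v ∈ P, ∀ σ, IsFrob v σ → ‖(ρ σ⁻¹ : Matrix (Fin n) (Fin n) (PadicAlgCl ℓ)).trace -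
      (ρ' σ⁻¹ : Matrix (Fin n) (Fin n) (PadicAlgCl ℓ)).trace‖ ≤ ε) (σ : GK K) :
    ‖(ρ σ : Matrix (Fin n) (Fin n) (PadicAlgCl ℓ)).trace -
      (ρ' σ : Matrix (Fin n) (Fin n) (PadicAlgCl ℓ)).trace‖ ≤ ε := by
  obtain ⟨N, hN⟩ := exists_model ρ hρ.1
  obtain ⟨N', hN'⟩ := exists_model ρ' hρ'.1
  by_contra hcon
  push Not at hcon
  set c : OO ℓ := (N σ).trace - (N' σ).trace with hcd
  have hc : (c : PadicAlgCl ℓ) = (ρ σ : Matrix (Fin n) (Fin n) (PadicAlgCl ℓ)).trace -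
      (ρ' σ : Matrix (Fin n) (Fin n) (PadicAlgCl ℓ)).trace := by
    rw [← hN.trace, ← hN'.trace]
    rfl
  rw [← hc] at hcon
  have hcpos : 0 < ‖(c : PadicAlgCl ℓ)‖ := lt_of_le_of_lt hε hcon
  -- an element of slightly smaller norm
  obtain ⟨k, hk⟩ := exists_pow_lt_of_lt_one (norm_ell_pos (ℓ := ℓ)) ((div_lt_one hcpos).2 hcon)
  have hk0 : k ≠ 0 := by
    rintro rfl
    rw [pow_zero] at hk
    exact absurd hk (not_lt.2 norm_ell_lt.le)
  obtain ⟨x, hx⟩ := IsAlgClosed.exists_pow_nat_eq (ℓ : PadicAlgCl ℓ) (Nat.pos_of_ne_zero hk0)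
  have hxn : ‖x‖ ^ k = ‖(ℓ : PadicAlgCl ℓ)‖ := by rw [← norm_pow, hx]
  have hx1 : ‖x‖ < 1 := by
    by_contra h1
    push Not at h1
    have := one_le_pow₀ (n := k) h1
    rw [hxn] at this
    exact absurd this (not_le.2 norm_ell_lt)
  have hx2 : ε / ‖(c : PadicAlgCl ℓ)‖ ≤ ‖x‖ := by
    by_contra h1
    push Not at h1
    have h2 := pow_le_pow_left₀ (norm_nonneg x) h1.le k
    rw [hxn] at h2
    exact absurd hk (not_lt.2 h2)
  have hx0 : x ≠ 0 := by
    rintro rfl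
    rw [zero_pow hk0] at hx
    have := norm_ell_pos (ℓ := ℓ)
    rw [← hx, norm_zero] at this
    exact lt_irrefl _ this
  let x' : OO ℓ := ⟨x, (mem_OO x).2 hx1.le⟩
  set d : OO ℓ := c * x' with hd
  have hdn : ‖(d : PadicAlgCl ℓ)‖ = ‖(c : PadicAlgCl ℓ)‖ * ‖x‖ := by
    rw [hd, ← norm_mul]
    rfl
  have hd1 : ‖(d : PadicAlgCl ℓ)‖ < ‖(c : PadicAlgCl ℓ)‖ := by
    rw [hdn]
    nlinarith
  have hd2 : ε ≤ ‖(d : PadicAlgCl ℓ)‖ := by
    rw [hdn]
    rw [div_le_iff₀ hcpos] at hx2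
    linarith
  have hd3 : ‖(d : PadicAlgCl ℓ)‖ < 1 := lt_of_lt_of_le hd1 (norm_coe_le c)
  have hd0 : d ≠ 0 := by
    intro h0
    have : ‖(d : PadicAlgCl ℓ)‖ = 0 := by rw [h0]; exact norm_zero
    rw [hdn] at this
    exact (mul_pos hcpos (norm_pos_iff.2 hx0)).ne' this
  haveI : IsLocalRing (OO ℓ ⧸ Ideal.span {d}) := quot_local d hd3
  have h1 := hP (OO ℓ ⧸ Ideal.span {d}) (quot_chain d) (by
    have := mk_mem_max d hd3 (ℓ : OO ℓ) norm_natCast_ell_lt
    rwa [map_natCast] at this) (redC N d) (redC N' d) (adm_redC hN hρ d hd0 hd3) (adm_redC hN' hρ' d hd0 hd3) (by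
    intro v hv τ hτ
    rw [redC_trace, redC_trace, mk_eq_iff, hN.trace, hN'.trace]
    exact (h v hv τ hτ).trans hd2) σ
  rw [redC_trace, redC_trace, mk_eq_iff, hN.trace, hN'.trace, ← hc] at h1
  exact absurd h1 (not_le.2 hd1)

end Pool.Agent.H499.PW
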