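import Pool.Agent.H499.PW.Field

/-! The equivalences. -/

set_option autoImplicit false
set_option linter.all false

namespace Pool.Agent.H499.PW

open Module IsLocalRing Polynomial Matrix NumberField IsDedekindDomain Filter
open Pool.Agent.X320.DS (Semisimple)
open Pool.Agent.W401.Cheb (GK IsFrob IsInert)
open Pool.Agent.H499.CM

variable {K : Type} [Field K] [NumberField K] {ℓ : ℕ} [Fact ℓ.Prime] {n : ℕ}

/-- for every `m` and every place `v` outside `S` there is an admissible `ℓ`-adic representation which corresponds to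
`α` modulo `ℓ ^ m` at `v` and has the right traces modulo `ℓ ^ m` at the places of `P` -/
def WeakAdic (S : Set (HeightOneSpectrum (𝓞 K))) (U : Subgroup (GK K)) (P : Finset (HeightOneSpectrum (𝓞 K)))
    (α : HeightOneSpectrum (𝓞 K) → Fin n → PadicAlgCl ℓ) : Prop :=
  ∀ m, ∀ v ∉ S, ∃ ρ : GK K →* GL (Fin n) (PadicAlgCl ℓ), AdmAdic S U ρ ∧ CorrespondsNear m ρ v (α v) ∧
    ∀ w ∈ P, TraceNear m ρ w (α w)

theorem adm_redRep {S : Set (HeightOneSpectrum (𝓞 K))} {U : Subgroup (GK K)}
    {ρ : GK K →* GL (Fin n) (PadicAlgCl ℓ)} {N : GK K →* Matrix (Fin n) (Fin n) (OO ℓ)} (h : IntModel ρ N)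
    (hρ : AdmAdic S U ρ) (m : ℕ) : AdmMod S U (mk m) (redRep N m) := by
  obtain ⟨h1, h2, h3⟩ := hρ
  refine ⟨h.isOpen_ker h1 m, fun v hv σ hσ => h.red_one (h2 v hv σ hσ) m, fun σ hσ i => ?_⟩
  exact ⟨_, res_coeff h σ i (h3 σ hσ i), by rw [redRep_apply, map_res]⟩

theorem weak_of_adic {S : Set (HeightOneSpectrum (𝓞 K))} {U : Subgroup (GK K)}
    {P : Finset (HeightOneSpectrum (𝓞 K))} {α : HeightOneSpectrum (𝓞 K) → Fin n → PadicAlgCl ℓ}
    (h : WeakAdic S U P α) : WeakSystem S U P (fun m => mk m) false α := by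
  intro m v hv
  obtain ⟨ρ, h1, h2, h3⟩ := h m v hv
  obtain ⟨N, hN⟩ := exists_model ρ h1.1
  exact ⟨redRep N m, adm_redRep hN h1 m, hN.near m v (α v) h2, fun w hw => hN.traceNear m w (α w) (h3 w hw)⟩

theorem adic_of_attached {S : Set (HeightOneSpectrum (𝓞 K))} {U : Subgroup (GK K)}
    {P : Finset (HeightOneSpectrum (𝓞 K))} (hPS : ∀ v ∈ P, v ∉ S)
    {α : HeightOneSpectrum (𝓞 K) → Fin n → PadicAlgCl ℓ} {strict : Bool}
    (h : ∃ ρ : GK K →* GL (Fin n) (PadicAlgCl ℓ), Attached S α strict ρ ∧ AdmAdic S U ρ) : WeakAdic S U P α := by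
  obtain ⟨ρ, h1, h2⟩ := h
  exact fun m v hv => ⟨ρ, h2, near_of_corr (h1.2.2 v hv) m, fun w hw => traceNear_of_corr (h1.2.2 w (hPS w hw)) m⟩

theorem weak_of_attached {S : Set (HeightOneSpectrum (𝓞 K))} {U : Subgroup (GK K)}
    {P : Finset (HeightOneSpectrum (𝓞 K))} (hPS : ∀ v ∈ P, v ∉ S)
    {α : HeightOneSpectrum (𝓞 K) → Fin n → PadicAlgCl ℓ} {strict : Bool}
    (h : ∃ ρ : GK K →* GL (Fin n) (PadicAlgCl ℓ), Attached S α strict ρ ∧ AdmAdic S U ρ) :
    WeakSystem S U P (fun m => mk m) strict α := by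
  obtain ⟨ρ, h1, h2⟩ := h
  obtain ⟨N, hN⟩ := exists_model ρ h1.1
  exact fun m v hv => ⟨redRep N m, adm_redRep hN h2 m, hN.corr (h1.2.2 v hv) m, fun w hw =>
    hN.traceNear m w (α w) (traceNear_of_corr (h1.2.2 w (hPS w hw)) m)⟩

/-- one subgroup for all representations whose reductions have entries in a finite field -/
theorem exists_U (S : Set (HeightOneSpectrum (𝓞 K))) (hS : S.Finite) (n q : ℕ) (hq : 1 < q) :
    ∃ U : Subgroup (GK K), IsOpen (U : Set (GK K)) ∧ ∀ (A : Type) [CommRing A] [IsLocalRing A]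
      (r : GK K →* GL (Fin n) A), IsOpen (r.ker : Set (GK K)) → (∀ v ∉ S, ∀ σ, IsInert v σ → r σ = 1) →
      (∀ σ i j, residue A ((r σ : Matrix (Fin n) (Fin n) A) i j) ^ q =
        residue A ((r σ : Matrix (Fin n) (Fin n) A) i j)) → Adm S U r := by
  classical
  refine ⟨sInf (big S (q ^ (n * n))), isOpen_sInf _ (finite_open S hS _) fun H hH => hH.1,
    fun A _ _ r hr hrS hrq => ⟨hr, hrS, ?_⟩⟩
  set r' : GK K →* GL (Fin n) (ResidueField A) := (Matrix.GeneralLinearGroup.map (residue A)).comp r with hr'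
  have hker : r.ker ≤ r'.ker := by
    intro x hx
    show Matrix.GeneralLinearGroup.map (residue A) (r x) = 1
    rw [show r x = 1 from hx, map_one]
  have hent : ∀ σ i j, (r' σ : Matrix (Fin n) (Fin n) (ResidueField A)) i j ∈
      (X ^ q - X : (ResidueField A)[X]).roots.toFinset := by
    intro σ i j
    rw [Multiset.mem_toFinset, Polynomial.mem_roots (FiniteField.X_pow_card_sub_X_ne_zero (ResidueField A) hq),
      Polynomial.IsRoot.def, Polynomial.eval_sub, Polynomial.eval_pow, Polynomial.eval_X, sub_eq_zero]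
    exact hrq σ i j
  set T : Finset (ResidueField A) := (X ^ q - X : (ResidueField A)[X]).roots.toFinset with hT
  have hTc : T.card ≤ q := by
    refine (Multiset.toFinset_card_le _).trans ((Polynomial.card_roots' _).trans ?_)
    rw [FiniteField.X_pow_card_sub_X_natDegree_eq (ResidueField A) hq]
  have hidx : r'.ker.index ≤ q ^ (n * n) := by
    rw [Subgroup.index_ker]
    let f : r'.range → (Fin n × Fin n → T) := fun x p => ⟨(x.1 : Matrix (Fin n) (Fin n) (ResidueField A)) p.1 p.2, by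
      obtain ⟨σ, hσ⟩ := x.2
      rw [← hσ]
      exact hent σ _ _⟩
    have hf : Function.Injective f := by
      intro x y hxy
      apply Subtype.ext
      apply Units.ext
      ext i j
      exact congrArg Subtype.val (congrFun hxy (i, j))
    refine (Nat.card_le_card_of_injective f hf).trans ?_
    rw [Nat.card_fun, Nat.card_prod, Nat.card_eq_fintype_card, Nat.card_eq_fintype_card, Fintype.card_fin,
      Fintype.card_coe]
    exact Nat.pow_le_pow_left hTc _
  have hbig : r'.ker ∈ big S (q ^ (n * n)) := by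
    refine ⟨Subgroup.isOpen_mono hker hr, hidx, fun v hv σ hσ => hker (hrS v hv σ hσ)⟩
  intro σ hσ i
  have h1 : σ ∈ r'.ker := (Subgroup.mem_sInf.1 hσ) _ hbig
  have h2 : ((r σ : Matrix (Fin n) (Fin n) A).map (residue A)) = 1 := by
    have h3 : r' σ = 1 := h1
    have h4 := congrArg (fun u : GL (Fin n) (ResidueField A) => (u : Matrix (Fin n) (Fin n) (ResidueField A))) h3
    exact h4
  rw [← IsLocalRing.residue_eq_zero_iff, ← map_res, h2]
  have h5 : (1 : Matrix (Fin n) (Fin n) (ResidueField A)).charpoly = (X - 1) ^ n := by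
    rw [Matrix.charpoly_one, Fintype.card_fin]
  rw [h5, sub_self, Polynomial.coeff_zero]

end Pool.Agent.H499.PW
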