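import Pool.Agent.H499.PW.Red
import Pool.Agent.H499.CM.Chain

/-! Two representations over a local ring whose traces agree at representatives of the cosets of a subgroup
which does not depend on the representations. -/

set_option autoImplicit false
set_option linter.all false

namespace Pool.Agent.H499.PW

open Module IsLocalRing Polynomial Matrix
open Pool.Agent.H499.CM (chain_coeff entries entries_sum card_two Two)

section local_ring

variable {A : Type*} [CommRing A] [IsLocalRing A] {B : Type*} [Ring B] [Algebra A B] {G : Type*} [Group G]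
  {ℓ : ℕ} [Fact ℓ.Prime]

theorem psi_congr (y : G →* B) (g h : G) (e : y g = y h) : psi (A := A) y g = psi y h := by
  apply LinearMap.ext
  intro w
  obtain ⟨w, rfl⟩ := Submodule.mkQ_surjective _ w
  rw [Submodule.mkQ_apply, psi_mk, psi_mk]
  congr 1
  apply Subtype.ext
  rw [lft_coe, lft_coe, e]

theorem psi_fin (y : G →* B) (hy : (Set.range y).Finite) : (Set.range (psi (A := A) y)).Finite := by
  classical
  let f : B → Module.End (A ⧸ maximalIdeal A) (MM A y ⧸ (maximalIdeal A • ⊤ : Submodule A (MM A y))) :=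
    fun b => if h : ∃ g, y g = b then psi y h.choose else 1
  refine (hy.image f).subset ?_
  rintro _ ⟨g, rfl⟩
  refine ⟨y g, ⟨g, rfl⟩, ?_⟩
  have h : ∃ g', y g' = y g := ⟨g, rfl⟩
  show (if h : ∃ g', y g' = y g then psi y h.choose else 1) = psi y g
  rw [dif_pos h]
  exact psi_congr y _ _ h.choose_spec

theorem MM_eq (y : G →* B) {N : ℕ} (g0 : Fin N → G)
    (hg0 : ∀ h, y h ∈ Submodule.span A (Set.range fun i => y (g0 i))) :
    MM A y = Submodule.span A (Set.range fun i => y (g0 i)) := by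
  apply le_antisymm
  · rw [MM, Submodule.span_le]
    rintro _ ⟨h, rfl⟩
    exact hg0 h
  · refine Submodule.span_mono ?_
    rintro _ ⟨i, rfl⟩
    exact ⟨g0 i, rfl⟩

theorem span_W (y : G →* B) {N : ℕ} (g0 : Fin N → G)
    (hg0 : ∀ h, y h ∈ Submodule.span A (Set.range fun i => y (g0 i))) :
    Submodule.span (A ⧸ maximalIdeal A) (Set.range fun i => (Submodule.Quotient.mk
      (⟨y (g0 i), mem_MM y (g0 i)⟩ : MM A y) : MM A y ⧸ (maximalIdeal A • ⊤ : Submodule A (MM A y)))) = ⊤ := by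
  rw [eq_top_iff]
  intro w _
  obtain ⟨w, rfl⟩ := Submodule.mkQ_surjective _ w
  have h1 : (w : B) ∈ Submodule.span A (Set.range fun i => y (g0 i)) := by
    rw [← MM_eq y g0 hg0]
    exact w.2
  obtain ⟨a, ha⟩ := (Submodule.mem_span_range_iff_exists_fun A).1 h1
  have h2 : w = ∑ i, a i • (⟨y (g0 i), mem_MM y (g0 i)⟩ : MM A y) := by
    apply Subtype.ext
    rw [Submodule.coe_sum, ← ha]
    rfl
  rw [h2, Submodule.mkQ_apply, ← Submodule.mkQ_apply, map_sum]
  refine Submodule.sum_mem _ fun i _ => ?_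
  rw [Submodule.mkQ_apply, ← Module.Quotient.mk_smul_mk]
  exact Submodule.smul_mem _ _ (Submodule.subset_span ⟨i, rfl⟩)

theorem fd_W (y : G →* B) {N : ℕ} (g0 : Fin N → G)
    (hg0 : ∀ h, y h ∈ Submodule.span A (Set.range fun i => y (g0 i))) :
    Module.Finite (A ⧸ maximalIdeal A) (MM A y ⧸ (maximalIdeal A • ⊤ : Submodule A (MM A y))) :=
  ⟨Submodule.fg_def.2 ⟨_, Set.finite_range _, span_W y g0 hg0⟩⟩

theorem absorb (hℓ : (ℓ : A) ∈ maximalIdeal A) (y : G →* B) (hyfin : (Set.range y).Finite) {N : ℕ}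
    (g0 : Fin N → G) (hg0 : ∀ h, y h ∈ Submodule.span A (Set.range fun i => y (g0 i)))
    (V : ℕ → Subgroup G) (hanti : Antitone V) (hV0 : ∀ g ∈ V 0, UnipAt A y g)
    (hstep : ∀ i, ∀ χ : V i →* Multiplicative (ZMod ℓ), (∀ g : V i, y g = 1 → χ g = 1) →
      ∀ g : V i, (g : G) ∈ V (i + 1) → χ g = 1) : ∀ g ∈ V N, psi (A := A) y g = 1 := by
  haveI := charP_res hℓ
  letI : Field (A ⧸ maximalIdeal A) := Ideal.Quotient.field _
  haveI := fd_W y g0 hg0
  refine chain_trivial (ℓ := ℓ) (k := A ⧸ maximalIdeal A) (psi (A := A) y) (psi_fin y hyfin) V hanti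
    (fun g hg => psi_pow hℓ y g (hV0 g hg)) (fun i χ hχ => hstep i χ fun g hg => hχ g ?_) N ?_
  · rw [psi_congr y g 1 (hg.trans (map_one y).symm), map_one]
  · have h1 := finrank_range_le_card (R := A ⧸ maximalIdeal A) (fun i => (Submodule.Quotient.mk
      (⟨y (g0 i), mem_MM y (g0 i)⟩ : MM A y) : MM A y ⧸ (maximalIdeal A • ⊤ : Submodule A (MM A y))))
    rw [Set.finrank, span_W y g0 hg0, finrank_top, Fintype.card_fin] at h1
    exact h1

theorem span_cosets (hℓ : (ℓ : A) ∈ maximalIdeal A) (y : G →* B) (hyfin : (Set.range y).Finite) {N : ℕ}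
    (g0 : Fin N → G) (hg0 : ∀ h, y h ∈ Submodule.span A (Set.range fun i => y (g0 i)))
    (V : ℕ → Subgroup G) (hanti : Antitone V) (hV0 : ∀ g ∈ V 0, UnipAt A y g)
    (hstep : ∀ i, ∀ χ : V i →* Multiplicative (ZMod ℓ), (∀ g : V i, y g = 1 → χ g = 1) →
      ∀ g : V i, (g : G) ∈ V (i + 1) → χ g = 1)
    (X : Set G) (hX : ∀ g, ∃ v ∈ V N, v * g ∈ X) : MM A y ≤ Submodule.span A (y '' X) := by
  have h1 := absorb hℓ y hyfin g0 hg0 V hanti hV0 hstep
  have hfg : (MM A y).FG := by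
    rw [MM_eq y g0 hg0]
    exact Submodule.fg_span (Set.finite_range _)
  refine Submodule.le_of_le_smul_of_le_jacobson_bot (I := maximalIdeal A) hfg
    (maximalIdeal_le_jacobson _) ?_
  conv_lhs => rw [MM]
  rw [Submodule.span_le]
  rintro _ ⟨g, rfl⟩
  obtain ⟨v, hv, hvg⟩ := hX g
  have h2 : psi (A := A) y v (Submodule.Quotient.mk ⟨y g, mem_MM y g⟩) = Submodule.Quotient.mk ⟨y g, mem_MM y g⟩ := by
    rw [h1 v hv]
    rfl
  rw [psi_mk] at h2
  have h3 := (Submodule.Quotient.eq _).1 h2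
  have h4 : ((lft y v ⟨y g, mem_MM y g⟩ - ⟨y g, mem_MM y g⟩ : MM A y) : B) ∈ maximalIdeal A • MM A y := by
    have h5 := Submodule.mem_map_of_mem (f := (MM A y).subtype) h3
    rw [Submodule.map_smul'', Submodule.map_top, Submodule.range_subtype] at h5
    exact h5
  have e : ((lft y v ⟨y g, mem_MM y g⟩ - ⟨y g, mem_MM y g⟩ : MM A y) : B) = y (v * g) - y g := by
    rw [map_mul]
    rfl
  rw [e] at h4
  have e2 : y g = y (v * g) + -(y (v * g) - y g) := by abel
  rw [SetLike.mem_coe, e2]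
  exact Submodule.add_mem_sup (Submodule.subset_span ⟨_, hvg, rfl⟩) (Submodule.neg_mem _ h4)

end local_ring

section matrices

variable {A : Type*} [CommRing A] [IsLocalRing A] {G : Type*} [Group G] {ℓ : ℕ} [Fact ℓ.Prime] {n : ℕ}

/-- the characteristic polynomial is `(X - 1) ^ n` modulo the maximal ideal -/
def ResU (M : Matrix (Fin n) (Fin n) A) : Prop :=
  ∀ i, (M.charpoly - (X - 1) ^ n).coeff i ∈ maximalIdeal A

theorem coeff_mem_iff (P : A[X]) (I : Ideal A) : (∀ i, P.coeff i ∈ I) ↔ P.map (Ideal.Quotient.mk I) = 0 := by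
  rw [Polynomial.ext_iff]
  refine forall_congr' fun i => ?_
  rw [Polynomial.coeff_map, Polynomial.coeff_zero, Ideal.Quotient.eq_zero_iff_mem]

theorem aeval_prod' (M M' : Matrix (Fin n) (Fin n) A) (P : A[X]) :
    aeval ((M, M') : Matrix (Fin n) (Fin n) A × Matrix (Fin n) (Fin n) A) P = (aeval M P, aeval M' P) := by
  apply Prod.ext
  · exact (Polynomial.aeval_algHom_apply (AlgHom.fst A (Matrix (Fin n) (Fin n) A) (Matrix (Fin n) (Fin n) A))
      ((M, M') : Matrix (Fin n) (Fin n) A × Matrix (Fin n) (Fin n) A) P).symm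
  · exact (Polynomial.aeval_algHom_apply (AlgHom.snd A (Matrix (Fin n) (Fin n) A) (Matrix (Fin n) (Fin n) A))
      ((M, M') : Matrix (Fin n) (Fin n) A × Matrix (Fin n) (Fin n) A) P).symm

theorem unip_pair (r r' : G →* Matrix (Fin n) (Fin n) A) (g : G) (h : ResU (r g)) (h' : ResU (r' g)) :
    UnipAt A (r.prod r') g := by
  refine ⟨(X - 1) ^ (2 * n) - (r g).charpoly * (r' g).charpoly, 2 * n, ?_, ?_⟩
  · rw [coeff_mem_iff]
    have h1 := (coeff_mem_iff _ _).1 h
    have h2 := (coeff_mem_iff _ _).1 h'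
    rw [Polynomial.map_sub, sub_eq_zero] at h1 h2
    rw [Polynomial.map_sub, Polynomial.map_mul, h1, h2, sub_eq_zero, ← Polynomial.map_mul]
    congr 1
    ring
  · have e : (r.prod r') g = (r g, r' g) := rfl
    have e1 : ((r.prod r') g - 1) ^ (2 * n) = aeval ((r.prod r') g) ((X - 1 : A[X]) ^ (2 * n)) := by
      rw [map_pow, map_sub, aeval_X, map_one]
    rw [e1, map_sub, e, aeval_prod' (r g) (r' g) ((r g).charpoly * (r' g).charpoly), map_mul, map_mul,
      Matrix.aeval_self_charpoly, Matrix.aeval_self_charpoly, zero_mul, mul_zero]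
    exact (sub_zero _).symm

/-- **Finite determination.** -/
theorem trace_determ (hA : ∀ a b : A, a ∣ b ∨ b ∣ a) (hℓ : (ℓ : A) ∈ maximalIdeal A)
    (r r' : G →* Matrix (Fin n) (Fin n) A) (hr : (Set.range r).Finite) (hr' : (Set.range r').Finite)
    (V : ℕ → Subgroup G) (hanti : Antitone V) (hV0 : ∀ g ∈ V 0, ResU (r g) ∧ ResU (r' g))
    (hstep : ∀ i, ∀ χ : V i →* Multiplicative (ZMod ℓ), (∀ g : V i, r g = 1 → r' g = 1 → χ g = 1) →
      ∀ g : V i, (g : G) ∈ V (i + 1) → χ g = 1)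
    (X : Set G) (hX : ∀ g, ∃ v ∈ V (2 * n ^ 2), v * g ∈ X) (h : ∀ x ∈ X, (r x).trace = (r' x).trace) (g : G) :
    (r g).trace = (r' g).trace := by
  have hfin : (Set.range fun g => entries (r g) (r' g)).Finite := by
    have h1 : (Set.range fun g => (r g, r' g)).Finite := by
      refine (hr.prod hr').subset ?_
      rintro _ ⟨g, rfl⟩
      exact ⟨⟨g, rfl⟩, ⟨g, rfl⟩⟩
    refine (h1.image fun z => entries z.1 z.2).subset ?_
    rintro _ ⟨g, rfl⟩
    exact ⟨_, ⟨g, rfl⟩, rfl⟩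
  obtain ⟨g0, hg0⟩ := chain_coeff hA _ hfin
  have hN : Fintype.card (Two n) = 2 * n ^ 2 := card_two n
  set y : G →* Matrix (Fin n) (Fin n) A × Matrix (Fin n) (Fin n) A := r.prod r' with hy
  have hyfin : (Set.range y).Finite := by
    refine (hr.prod hr').subset ?_
    rintro _ ⟨g, rfl⟩
    exact ⟨⟨g, rfl⟩, ⟨g, rfl⟩⟩
  have hg1 : ∀ h, y h ∈ Submodule.span A (Set.range fun i => y (g0 i)) := by
    intro h
    obtain ⟨a, ha⟩ := hg0 h
    obtain ⟨h1, h2⟩ := entries_sum _ _ _ _ _ ha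
    refine (Submodule.mem_span_range_iff_exists_fun A).2 ⟨a, ?_⟩
    apply Prod.ext
    · rw [Prod.fst_sum]
      exact h1.symm
    · rw [Prod.snd_sum]
      exact h2.symm
  have h1 := span_cosets hℓ y hyfin g0 hg1 V hanti (fun g hg => unip_pair r r' g (hV0 g hg).1 (hV0 g hg).2)
    (fun i χ hχ => hstep i χ fun g h2 h3 => hχ g (Prod.ext h2 h3)) X (by rw [hN]; exact hX)
  let τ : Matrix (Fin n) (Fin n) A × Matrix (Fin n) (Fin n) A →ₗ[A] A :=
    (Matrix.traceLinearMap (Fin n) A A).comp (LinearMap.fst A _ _) -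
      (Matrix.traceLinearMap (Fin n) A A).comp (LinearMap.snd A _ _)
  have hτ : ∀ z, τ z = z.1.trace - z.2.trace := fun z => rfl
  have h2 : Submodule.span A (y '' X) ≤ LinearMap.ker τ := by
    rw [Submodule.span_le]
    rintro _ ⟨x, hx, rfl⟩
    rw [SetLike.mem_coe, LinearMap.mem_ker, hτ, sub_eq_zero]
    exact h x hx
  have h3 := h2 (h1 (mem_MM y g))
  rw [LinearMap.mem_ker, hτ, sub_eq_zero] at h3
  exact h3

end matrices

end Pool.Agent.H499.PW
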