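import Pool.Agent.H499.PW.Iso
import Pool.Agent.H499.CM.Final

/-! Existence of a representation from approximations at a finite set of places and one more place. -/

set_option autoImplicit false
set_option linter.all false

namespace Pool.Agent.H499.PW

open Module IsLocalRing Polynomial Matrix NumberField IsDedekindDomain Filter
open Pool.Agent.X320.DS (Semisimple)
open Pool.Agent.W401.Cheb (GK IsFrob IsInert)
open Pool.Agent.H499.CM

variable {K : Type} [Field K] [NumberField K] {ℓ : ℕ} [Fact ℓ.Prime] {n : ℕ}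

theorem corr_of_system {ρ : GK K →* GL (Fin n) (PadicAlgCl ℓ)} {r : ∀ m, GK K →* GL (Fin n) (RR ℓ m)}
    (h3 : TrCong ρ r) (h2 : Semisimple ρ) {strict : Bool} {v : HeightOneSpectrum (𝓞 K)}
    {a : Fin n → PadicAlgCl ℓ} (hinf : {m | CorrespondsMod strict (mk m) (r m) v a}.Infinite) :
    Corresponds strict ρ v a := by
  classical
  refine ⟨fun σ hσ => ?_, fun σ hσ => ?_⟩
  · exact h3.inert h2 σ (hinf.mono fun m hm => hm.1 σ hσ)
  · obtain ⟨m0, hm0⟩ := hinf.nonempty
    obtain ⟨b, hb, -, -⟩ := hm0.2 σ hσ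
    have hbm : ∀ m, CorrespondsMod strict (mk m) (r m) v a →
        (r m σ⁻¹ : Matrix (Fin n) (Fin n) (RR ℓ m)).charpoly = ∏ i, (X - C (mk m (b i))) ∧
        (strict = true → aeval (r m σ⁻¹ : Matrix (Fin n) (Fin n) (RR ℓ m))
          (∏ x ∈ Finset.univ.image b, (X - C (mk m x))) = 0) := by
      intro m hm
      obtain ⟨b', hb', h4, h5⟩ := hm.2 σ hσ
      have e : b' = b := by
        funext i
        apply Subtype.ext
        rw [hb', hb]
      subst e
      exact ⟨h4, h5⟩
    have h6 : (ρ σ⁻¹ : Matrix (Fin n) (Fin n) (PadicAlgCl ℓ)).charpoly = ∏ i, (X - C (a i)) := by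
      rw [h3.frob b σ⁻¹ (hinf.mono fun m hm => (hbm m hm).1)]
      exact Finset.prod_congr rfl fun i _ => by rw [hb]
    refine ⟨h6, fun hs => conj_diag_of_relation _ _ h6 ?_⟩
    have h7 := h3.relation h2 (∏ x ∈ Finset.univ.image b, (X - C x)) σ⁻¹ (hinf.mono fun m hm => by
      show aeval _ _ = _
      rw [Polynomial.map_prod]
      simp only [Polynomial.map_sub, Polynomial.map_X, Polynomial.map_C]
      exact (hbm m hm).2 hs)
    rw [Polynomial.map_prod] at h7
    simp only [Polynomial.map_sub, Polynomial.map_X, Polynomial.map_C] at h7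
    have h8 : Finset.univ.image a = (Finset.univ.image b).image fun x : OO ℓ => (x : PadicAlgCl ℓ) := by
      rw [Finset.image_image]
      exact Finset.image_congr fun i _ => (hb i).symm
    rw [h8, Finset.prod_image fun x _ y _ hxy => Subtype.ext hxy]
    exact h7

/-! ### the residual condition passes to the limit -/

theorem rev_cong {ρ : GK K →* GL (Fin n) (PadicAlgCl ℓ)} {N : GK K →* Matrix (Fin n) (Fin n) (OO ℓ)}
    (h : IntModel ρ N) {m : ℕ} {r : GK K →* GL (Fin n) (RR ℓ m)}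
    (hr : ∀ σ, (r σ : Matrix (Fin n) (Fin n) (RR ℓ m)).trace = mk m (N σ).trace) (σ : GK K) (k : ℕ) :
    (k.factorial : RR ℓ m) * (mk m ((N σ).charpolyRev.coeff k) -
      (r σ : Matrix (Fin n) (Fin n) (RR ℓ m)).charpolyRev.coeff k) = 0 := by
  induction k using Nat.strong_induction_on with
  | _ k ih =>
    rcases k with _ | k
    · rw [coeff_zero_eq_eval_zero, coeff_zero_eq_eval_zero, Matrix.eval_charpolyRev,
        Matrix.eval_charpolyRev, map_one, sub_self, mul_zero]
    · have h1 := congrArg (mk m) (newton (N σ) k)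
      have h2 := newton (r σ : Matrix (Fin n) (Fin n) (RR ℓ m)) k
      rw [map_neg, map_mul, map_sum, map_add, map_natCast, map_one] at h1
      have h3 : ∀ j, mk m ((N σ) ^ j).trace = ((r σ : Matrix (Fin n) (Fin n) (RR ℓ m)) ^ j).trace := by
        intro j
        have e1 : (N σ) ^ j = N (σ ^ j) := (map_pow N σ j).symm
        have e2 : (r σ : Matrix (Fin n) (Fin n) (RR ℓ m)) ^ j = (r (σ ^ j) : Matrix (Fin n) (Fin n) (RR ℓ m)) := by
          rw [map_pow, Units.val_pow_eq_pow_val]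
        rw [e1, e2, hr]
      rw [Nat.factorial_succ]
      push_cast
      have e : ((k : RR ℓ m) + 1) * (k.factorial : RR ℓ m) * (mk m ((N σ).charpolyRev.coeff (k + 1)) -
          (r σ : Matrix (Fin n) (Fin n) (RR ℓ m)).charpolyRev.coeff (k + 1)) =
          (k.factorial : RR ℓ m) * (mk m ((N σ).charpolyRev.coeff (k + 1)) * ((k : RR ℓ m) + 1) -
          (r σ : Matrix (Fin n) (Fin n) (RR ℓ m)).charpolyRev.coeff (k + 1) * ((k : RR ℓ m) + 1)) := by ring
      rw [e, h1, h2, neg_sub_neg, ← Finset.sum_sub_distrib, Finset.mul_sum]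
      refine Finset.sum_eq_zero fun p hp => ?_
      have hp1 : p.1 ≤ k := by
        have := Finset.HasAntidiagonal.mem_antidiagonal.mp hp
        omega
      obtain ⟨c, hc⟩ := Nat.factorial_dvd_factorial hp1
      have h4 := ih p.1 (by omega)
      rw [map_mul, h3, hc]
      push_cast
      have e2 : (p.1.factorial : RR ℓ m) * (c : RR ℓ m) *
          ((r σ : Matrix (Fin n) (Fin n) (RR ℓ m)).charpolyRev.coeff p.1 *
            ((r σ : Matrix (Fin n) (Fin n) (RR ℓ m)) ^ (p.2 + 1)).trace -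
          mk m ((N σ).charpolyRev.coeff p.1) * ((r σ : Matrix (Fin n) (Fin n) (RR ℓ m)) ^ (p.2 + 1)).trace) =
          -((c : RR ℓ m) * ((p.1.factorial : RR ℓ m) * (mk m ((N σ).charpolyRev.coeff p.1) -
          (r σ : Matrix (Fin n) (Fin n) (RR ℓ m)).charpolyRev.coeff p.1)) *
            ((r σ : Matrix (Fin n) (Fin n) (RR ℓ m)) ^ (p.2 + 1)).trace) := by ring
      rw [e2, h4, mul_zero, zero_mul, neg_zero]

theorem charpoly_coeff_rev {R : Type} [CommRing R] [Nontrivial R] (M : Matrix (Fin n) (Fin n) R) (k : ℕ)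
    (hk : k ≤ n) : M.charpoly.coeff k = M.charpolyRev.coeff (n - k) := by
  rw [← Matrix.reverse_charpoly, Polynomial.coeff_reverse, Matrix.charpoly_natDegree_eq_dim, Fintype.card_fin,
    Polynomial.revAt_le (Nat.sub_le n k)]
  congr 1
  omega

theorem res_limit {U : Subgroup (GK K)} {S : Set (HeightOneSpectrum (𝓞 K))}
    {ρ : GK K →* GL (Fin n) (PadicAlgCl ℓ)} {N : GK K →* Matrix (Fin n) (Fin n) (OO ℓ)}
    (h : IntModel ρ N) {r : ∀ m, GK K →* GL (Fin n) (RR ℓ m)}
    (hr : ∀ m σ, (r m σ : Matrix (Fin n) (Fin n) (RR ℓ m)).trace = mk m (N σ).trace)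
    (hadm : ∀ m, AdmMod S U (mk m) (r m)) (σ : GK K) (hσ : σ ∈ U) (k : ℕ) :
    ‖((ρ σ : Matrix (Fin n) (Fin n) (PadicAlgCl ℓ)).charpoly - (X - 1) ^ n).coeff k‖ < 1 := by
  have hcoe : ((ρ σ : Matrix (Fin n) (Fin n) (PadicAlgCl ℓ)).charpoly - (X - 1) ^ n).coeff k =
      ((((N σ).charpoly - (X - 1) ^ n).coeff k : OO ℓ) : PadicAlgCl ℓ) := by
    have e : (((N σ).charpoly - (X - 1) ^ n).map (algebraMap (OO ℓ) (PadicAlgCl ℓ))) =
        (ρ σ : Matrix (Fin n) (Fin n) (PadicAlgCl ℓ)).charpoly - (X - 1) ^ n := by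
      rw [Polynomial.map_sub, h.charpoly, Polynomial.map_pow, Polynomial.map_sub, Polynomial.map_X,
        Polynomial.map_one]
    rw [← e, Polynomial.coeff_map]
    rfl
  rw [hcoe]
  by_cases hk : k ≤ n
  · have hf0 : ((n.factorial : ℕ) : PadicAlgCl ℓ) ≠ 0 := by exact_mod_cast n.factorial_ne_zero
    obtain ⟨m0, hm0⟩ := exists_dvd_pow (ℓ := ℓ) _ hf0
    set m := m0 + 1 with hm
    haveI : Nontrivial (RR ℓ m) := quot_nontrivial _ (norm_pow_ell_lt (by omega))
    obtain ⟨c, hc1, hc2⟩ := (hadm m).2.2 σ hσ k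
    have h1 := rev_cong h (hr m) σ (n - k)
    rw [← charpoly_coeff_rev _ k hk, ← charpoly_coeff_rev _ k hk] at h1
    set z : OO ℓ := ((N σ).charpoly - (X - 1) ^ n).coeff k - c with hz
    have h2 : mk m (((n - k).factorial : OO ℓ) * z) = 0 := by
      have e1 : mk m (((X - 1 : (OO ℓ)[X]) ^ n).coeff k) = ((X - 1 : (RR ℓ m)[X]) ^ n).coeff k := by
        rw [← Polynomial.coeff_map, Polynomial.map_pow, Polynomial.map_sub, Polynomial.map_X, Polynomial.map_one]
      rw [hz, map_mul, map_natCast, map_sub, Polynomial.coeff_sub, map_sub, e1, ← hc2, Polynomial.coeff_sub]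
      have e2 : mk m ((N σ).charpoly.coeff k) - ((X - 1 : (RR ℓ m)[X]) ^ n).coeff k -
          ((r m σ : Matrix (Fin n) (Fin n) (RR ℓ m)).charpoly.coeff k - ((X - 1 : (RR ℓ m)[X]) ^ n).coeff k) =
          mk m ((N σ).charpoly.coeff k) - (r m σ : Matrix (Fin n) (Fin n) (RR ℓ m)).charpoly.coeff k := by ring
      rw [e2]
      exact h1
    rw [mk_eq_zero] at h2
    have e3 : ((((n - k).factorial : OO ℓ) * z : OO ℓ) : PadicAlgCl ℓ) =
        ((n - k).factorial : PadicAlgCl ℓ) * z := by push_cast; rfl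
    rw [e3, norm_mul] at h2
    have h3 : ‖((n.factorial : ℕ) : PadicAlgCl ℓ)‖ ≤ ‖((n - k).factorial : PadicAlgCl ℓ)‖ := by
      obtain ⟨d, hd⟩ := Nat.factorial_dvd_factorial (Nat.sub_le n k)
      rw [hd]
      push_cast
      rw [norm_mul]
      have hd1 : ‖(d : PadicAlgCl ℓ)‖ ≤ 1 := by
        have := norm_coe_le ((d : OO ℓ))
        have e : ((d : OO ℓ) : PadicAlgCl ℓ) = (d : PadicAlgCl ℓ) := by push_cast; rfl
        rwa [e] at this
      exact mul_le_of_le_one_right (norm_nonneg _) hd1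
    have hpos : 0 < ‖((n.factorial : ℕ) : PadicAlgCl ℓ)‖ := norm_pos_iff.2 hf0
    have h4 : ‖(z : PadicAlgCl ℓ)‖ < 1 := by
      by_contra hcon
      push Not at hcon
      have h5 : ‖(ℓ : PadicAlgCl ℓ)‖ ^ m < ‖(ℓ : PadicAlgCl ℓ)‖ ^ m0 :=
        pow_lt_pow_right_of_lt_one₀ norm_ell_pos norm_ell_lt (by omega)
      nlinarith
    have e4 : ((((N σ).charpoly - (X - 1) ^ n).coeff k : OO ℓ) : PadicAlgCl ℓ) = (z : PadicAlgCl ℓ) + c := by
      rw [hz]
      have : ((((N σ).charpoly - (X - 1) ^ n).coeff k - c : OO ℓ) : PadicAlgCl ℓ) =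
        (((N σ).charpoly - (X - 1) ^ n).coeff k : PadicAlgCl ℓ) - c := rfl
      rw [this, sub_add_cancel]
    rw [e4]
    exact lt_of_le_of_lt (IsUltrametricDist.norm_add_le_max _ _) (max_lt h4 hc1)
  · have e : ((N σ).charpoly - (X - 1) ^ n).coeff k = 0 := by
      rw [Polynomial.coeff_sub, Polynomial.coeff_eq_zero_of_natDegree_lt, Polynomial.coeff_eq_zero_of_natDegree_lt,
        sub_zero]
      · have h1 : ((X - 1 : (OO ℓ)[X]) ^ n).natDegree ≤ n * 1 := by
          refine Polynomial.natDegree_pow_le_of_le n ?_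
          rw [← Polynomial.C_1]
          exact Polynomial.natDegree_X_sub_C_le _
        omega
      · rw [Matrix.charpoly_natDegree_eq_dim, Fintype.card_fin]
        omega
    rw [e]
    have e0 : ((0 : OO ℓ) : PadicAlgCl ℓ) = 0 := rfl
    rw [e0, norm_zero]
    exact one_pos

end Pool.Agent.H499.PW
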