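import Pool.Agent.H499.PW.Exist

/-! Automorphisms of the algebraic closure of `ℚ_ℓ` and the main existence theorem. -/

set_option autoImplicit false
set_option linter.all false

namespace Pool.Agent.H499.PW

open Module IsLocalRing Polynomial Matrix NumberField IsDedekindDomain Filter
open Pool.Agent.X320.DS (Semisimple)
open Pool.Agent.W401.Cheb (GK IsFrob IsInert)
open Pool.Agent.H499.CM

variable {K : Type} [Field K] [NumberField K] {ℓ : ℕ} [Fact ℓ.Prime] {n : ℕ}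

section auto

variable (F : IntermediateField ℚ_[ℓ] (PadicAlgCl ℓ)) (g : PadicAlgCl ℓ ≃ₐ[F] PadicAlgCl ℓ)

theorem norm_auto (x : PadicAlgCl ℓ) : ‖g x‖ = ‖x‖ := by
  have h := spectralNorm_eq_of_equiv (K := ℚ_[ℓ]) (g.restrictScalars ℚ_[ℓ]) x
  rw [PadicAlgCl.spectralNorm_eq, PadicAlgCl.spectralNorm_eq] at h
  exact h.symm

/-- the action on the integers -/
noncomputable def autO : OO ℓ →+* OO ℓ where
  toFun x := ⟨g x, (mem_OO _).2 (by rw [norm_auto]; exact norm_coe_le x)⟩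
  map_one' := Subtype.ext (map_one (g : PadicAlgCl ℓ →+* PadicAlgCl ℓ))
  map_mul' x y := Subtype.ext (map_mul (g : PadicAlgCl ℓ →+* PadicAlgCl ℓ) (x : PadicAlgCl ℓ) (y : PadicAlgCl ℓ))
  map_zero' := Subtype.ext (map_zero (g : PadicAlgCl ℓ →+* PadicAlgCl ℓ))
  map_add' x y := Subtype.ext (map_add (g : PadicAlgCl ℓ →+* PadicAlgCl ℓ) (x : PadicAlgCl ℓ) (y : PadicAlgCl ℓ))

theorem autO_coe (x : OO ℓ) : ((autO F g x : OO ℓ) : PadicAlgCl ℓ) = g x := rfl

/-- the action modulo `ℓ ^ m` -/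
noncomputable def autR (m : ℕ) : RR ℓ m →+* RR ℓ m :=
  Ideal.Quotient.lift _ ((mk m).comp (autO F g)) (by
    intro x hx
    rw [RingHom.comp_apply, mk_eq_zero, autO_coe, norm_auto, ← mk_eq_zero]
    exact (Ideal.Quotient.eq_zero_iff_mem).2 hx)

theorem autR_mk (m : ℕ) (x : OO ℓ) : autR F g m (mk m x) = mk m (autO F g x) := Ideal.Quotient.lift_mk _ _ _

end auto

theorem trace_map {R R' : Type} [CommRing R] [CommRing R'] (f : R →+* R') (M : Matrix (Fin n) (Fin n) R) :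
    (M.map f).trace = f M.trace := by
  rw [Matrix.trace, Matrix.trace]
  exact (map_sum f _ _).symm

theorem adm_auto {S : Set (HeightOneSpectrum (𝓞 K))} {U : Subgroup (GK K)} {m : ℕ}
    {r : GK K →* GL (Fin n) (RR ℓ m)} (hr : AdmMod S U (mk m) r)
    (F : IntermediateField ℚ_[ℓ] (PadicAlgCl ℓ)) (g : PadicAlgCl ℓ ≃ₐ[F] PadicAlgCl ℓ) :
    AdmMod S U (mk m) ((Matrix.GeneralLinearGroup.map (autR F g m)).comp r) := by
  obtain ⟨h1, h2, h3⟩ := hr
  refine ⟨Subgroup.isOpen_mono ?_ h1, fun v hv σ hσ => ?_, fun σ hσ i => ?_⟩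
  · intro x hx
    show Matrix.GeneralLinearGroup.map (autR F g m) (r x) = 1
    rw [show r x = 1 from hx, map_one]
  · show Matrix.GeneralLinearGroup.map (autR F g m) (r σ) = 1
    rw [h2 v hv σ hσ, map_one]
  · obtain ⟨c, hc1, hc2⟩ := h3 σ hσ i
    refine ⟨autO F g c, by rw [autO_coe, norm_auto]; exact hc1, ?_⟩
    rw [← autR_mk, ← hc2]
    exact map_res (autR F g m) (r σ : Matrix (Fin n) (Fin n) (RR ℓ m)) i

/-- the system of the problem: for every `m` and every place `v` outside `S` there is an admissible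
representation modulo `ℓ ^ m` which corresponds to `α` at `v` and has the right traces at the places of `P` -/
def WeakSystem (S : Set (HeightOneSpectrum (𝓞 K))) (U : Subgroup (GK K)) (P : Finset (HeightOneSpectrum (𝓞 K)))
    {R : ℕ → Type} [∀ m, CommRing (R m)] (q : ∀ m, OO ℓ →+* R m) (strict : Bool)
    (α : HeightOneSpectrum (𝓞 K) → Fin n → PadicAlgCl ℓ) : Prop :=
  ∀ m, ∀ v ∉ S, ∃ r : GK K →* GL (Fin n) (R m), AdmMod S U (q m) r ∧ CorrespondsMod strict (q m) r v (α v) ∧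
    ∀ w ∈ P, TraceMod (q m) r w (α w)

theorem exists_place (S : Set (HeightOneSpectrum (𝓞 K))) (hS : S.Finite) : ∃ v, v ∉ S := by
  obtain ⟨w, hw, -⟩ := exists_frob_coset S hS ⊤ isOpen_univ 1
  exact ⟨w, hw⟩

/-- **Existence.** -/
theorem exists_of_weak {S : Set (HeightOneSpectrum (𝓞 K))} (hS : S.Finite) {U : Subgroup (GK K)}
    {P : Finset (HeightOneSpectrum (𝓞 K))} (hPS : ∀ v ∈ P, v ∉ S) (hP : Determines K ℓ n S U P) (strict : Bool)
    (α : HeightOneSpectrum (𝓞 K) → Fin n → PadicAlgCl ℓ)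
    (h : WeakSystem S U P (fun m => mk m) strict α) :
    ∃ ρ : GK K →* GL (Fin n) (PadicAlgCl ℓ), Attached S α strict ρ ∧ AdmAdic S U ρ ∧
      ∀ m (r : GK K →* GL (Fin n) (RR ℓ m)), AdmMod S U (mk m) r → (∀ w ∈ P, TraceMod (mk m) r w (α w)) →
        ∀ σ, ∃ t : OO ℓ, (ρ σ : Matrix (Fin n) (Fin n) (PadicAlgCl ℓ)).trace = t ∧
          mk m t = (r σ : Matrix (Fin n) (Fin n) (RR ℓ m)).trace := by
  classical
  have h' : ∀ (m : ℕ) (v : {v // v ∉ S}), ∃ r : GK K →* GL (Fin n) (RR ℓ m), AdmMod S U (mk m) r ∧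
      CorrespondsMod strict (mk m) r v (α v) ∧ ∀ w ∈ P, TraceMod (mk m) r w (α w) := fun m v => h m v v.2
  choose r hadm hcorr htr using h'
  obtain ⟨v0, hv0⟩ := exists_place S hS
  -- all traces agree
  have hall : ∀ m (r₁ r₂ : GK K →* GL (Fin n) (RR ℓ m)), AdmMod S U (mk m) r₁ → AdmMod S U (mk m) r₂ →
      (∀ w ∈ P, TraceMod (mk m) r₁ w (α w)) → (∀ w ∈ P, TraceMod (mk m) r₂ w (α w)) →
      ∀ σ, (r₁ σ : Matrix (Fin n) (Fin n) (RR ℓ m)).trace = (r₂ σ : Matrix (Fin n) (Fin n) (RR ℓ m)).trace := by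
    intro m r₁ r₂ h1 h2 h3 h4
    refine determ_mod hP m r₁ r₂ h1 h2 fun w hw σ hσ => ?_
    obtain ⟨t, ht1, ht2⟩ := h3 w hw
    obtain ⟨t', ht1', ht2'⟩ := h4 w hw
    rw [ht2 σ hσ, ht2' σ hσ]
    congr 1
    exact Subtype.ext (ht1.trans ht1'.symm)
  -- the sums of the parameters
  let t : HeightOneSpectrum (𝓞 K) → OO ℓ := fun v =>
    if h : ∑ i, α v i ∈ OO ℓ then ⟨∑ i, α v i, h⟩ else 0
  have hint : ∀ v ∉ S, ∀ i, α v i ∈ OO ℓ := by
    intro v hv i
    obtain ⟨σ, hσ⟩ := Pool.Agent.W401.Frob.exists_frob v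
    obtain ⟨b, hb, -⟩ := (hcorr 0 ⟨v, hv⟩).2 σ hσ
    rw [← hb i]
    exact (b i).2
  have ht : ∀ v ∉ S, ((t v : OO ℓ) : PadicAlgCl ℓ) = ∑ i, α v i := by
    intro v hv
    show ((if h : ∑ i, α v i ∈ OO ℓ then ⟨∑ i, α v i, h⟩ else 0 : OO ℓ) : PadicAlgCl ℓ) = ∑ i, α v i
    rw [dif_pos (sum_mem fun i _ => hint v hv i)]
  have hfr : ∀ m (v : {v // v ∉ S}) σ, IsFrob v.1 σ →
      (r m v σ⁻¹ : Matrix (Fin n) (Fin n) (RR ℓ m)).trace = mk m (t v) := by
    intro m v σ hσ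
    obtain ⟨b, hb, hb2, -⟩ := (hcorr m v).2 σ hσ
    have h4 := trace_of_charpoly _ _ hb2 1
    simp only [pow_one] at h4
    rw [h4, ← map_sum]
    congr 1
    apply Subtype.ext
    rw [ht v v.2, AddSubmonoidClass.coe_finsetSum]
    exact Finset.sum_congr rfl fun i _ => hb i
  -- the field
  set F : IntermediateField ℚ_[ℓ] (PadicAlgCl ℓ) :=
    IntermediateField.adjoin ℚ_[ℓ] ((P.image fun w => ∑ i, α w i : Finset (PadicAlgCl ℓ)) : Set (PadicAlgCl ℓ))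
    with hFd
  haveI hFfin : FiniteDimensional ℚ_[ℓ] F := by
    haveI : Finite ((P.image fun w => ∑ i, α w i : Finset (PadicAlgCl ℓ)) : Set (PadicAlgCl ℓ)) :=
      Finset.finite_toSet _ |>.to_subtype
    exact IntermediateField.finiteDimensional_adjoin fun x _ => Algebra.IsIntegral.isIntegral x
  have hPF : ∀ w ∈ P, ∑ i, α w i ∈ F := fun w hw =>
    IntermediateField.subset_adjoin _ _ (Finset.mem_coe.2 (Finset.mem_image_of_mem _ hw))
  have hSF : ∀ v ∉ S, ∑ i, α v i ∈ F := by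
    intro v hv
    haveI : IsGalois F (PadicAlgCl ℓ) := by
      haveI : IsAlgClosure F (PadicAlgCl ℓ) := ⟨inferInstance, inferInstance⟩
      exact IsAlgClosure.isGalois F (PadicAlgCl ℓ)
    have hfix : ∀ g : PadicAlgCl ℓ ≃ₐ[F] PadicAlgCl ℓ, g (∑ i, α v i) = ∑ i, α v i := by
      intro g
      rw [← ht v hv]
      show ((autO F g (t v) : OO ℓ) : PadicAlgCl ℓ) = _
      congr 1
      refine eq_of_cong ?_
      have e : {m : ℕ | mk m (autO F g (t v)) = mk m (t v)} = Set.univ := by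
        ext m
        simp only [Set.mem_setOf_eq, Set.mem_univ, iff_true]
        obtain ⟨σ, hσ⟩ := Pool.Agent.W401.Frob.exists_frob v
        have h1 := hall m _ _ (adm_auto (hadm m ⟨v, hv⟩) F g) (hadm m ⟨v, hv⟩) (by
          intro w hw
          obtain ⟨s, hs1, hs2⟩ := htr m ⟨v, hv⟩ w hw
          refine ⟨s, hs1, fun τ hτ => ?_⟩
          show ((r m ⟨v, hv⟩ τ⁻¹ : Matrix (Fin n) (Fin n) (RR ℓ m)).map (autR F g m)).trace = _
          rw [trace_map, hs2 τ hτ, autR_mk]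
          congr 1
          apply Subtype.ext
          rw [autO_coe, hs1]
          exact g.commutes ⟨_, hPF w hw⟩) (htr m ⟨v, hv⟩) σ⁻¹
        have h2 : ((r m ⟨v, hv⟩ σ⁻¹ : Matrix (Fin n) (Fin n) (RR ℓ m)).map (autR F g m)).trace =
          (r m ⟨v, hv⟩ σ⁻¹ : Matrix (Fin n) (Fin n) (RR ℓ m)).trace := h1
        rw [trace_map, hfr m ⟨v, hv⟩ σ hσ, autR_mk] at h2
        exact h2
      rw [e]
      exact Set.infinite_univ
    have h1 := (InfiniteGalois.mem_bot_iff_fixed (k := F) (∑ i, α v i)).2 hfix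
    obtain ⟨y, hy⟩ := IntermediateField.mem_bot.1 h1
    rw [← hy]
    exact y.2
  -- the limit
  obtain ⟨c, hc0, hc⟩ : ∃ c : ℝ, 0 < c ∧ c * (4 * n ^ 2) < 1 := by
    refine ⟨1 / (4 * (n : ℝ) ^ 2 + 1), by positivity, ?_⟩
    rw [div_mul_eq_mul_div, one_mul, div_lt_one (by positivity)]
    linarith
  have hSf : Few (fun v : HeightOneSpectrum (𝓞 K) => v ∉ Sᶜ) c := by
    have h1 := Pool.Agent.X320.DS.dens_finite S hS
    have h2 : Few (fun v : HeightOneSpectrum (𝓞 K) => v ∈ S) c :=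
      (h1.eventually (gt_mem_nhds hc0)).mono fun N hN => hN.le
    exact Few.mono h2 fun v hv => not_not.1 hv
  obtain ⟨ρ, h1, h2, h3⟩ := main t c hc (fun _ => Sᶜ) (fun _ => hSf) (fun m => r m ⟨v0, hv0⟩)
    (fun m => (hadm m _).1) (by
      intro m v hv σ hσ
      rw [hall m (r m ⟨v0, hv0⟩) (r m ⟨v, hv⟩) (hadm m _) (hadm m _) (htr m _) (htr m _)]
      exact hfr m ⟨v, hv⟩ σ hσ) F (by
      intro m v hv
      rw [ht v hv]
      exact hSF v hv)
  have hcong : ∀ m (r₁ : GK K →* GL (Fin n) (RR ℓ m)), AdmMod S U (mk m) r₁ →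
      (∀ w ∈ P, TraceMod (mk m) r₁ w (α w)) → ∀ σ, ∃ t : OO ℓ,
      (ρ σ : Matrix (Fin n) (Fin n) (PadicAlgCl ℓ)).trace = t ∧
      mk m t = (r₁ σ : Matrix (Fin n) (Fin n) (RR ℓ m)).trace := by
    intro m r₁ hr1 hr2 σ
    obtain ⟨s, hs1, hs2⟩ := h3 σ m
    refine ⟨s, hs1, ?_⟩
    rw [hall m r₁ (r m ⟨v0, hv0⟩) hr1 (hadm m _) hr2 (htr m _)]
    exact hs2
  have hatt : ∀ v ∉ S, Corresponds strict ρ v (α v) := by
    intro v hv
    refine corr_of_system (r := fun m => r m ⟨v, hv⟩) (fun σ m => hcong m _ (hadm m _) (htr m _) σ) h2 ?_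
    have e : {m : ℕ | CorrespondsMod strict (mk m) (r m ⟨v, hv⟩) v (α v)} = Set.univ := by
      ext m
      simp only [Set.mem_setOf_eq, Set.mem_univ, iff_true]
      exact hcorr m ⟨v, hv⟩
    rw [e]
    exact Set.infinite_univ
  obtain ⟨N, hN⟩ := exists_model ρ h1
  refine ⟨ρ, ⟨h1, h2, hatt⟩, ⟨h1, fun v hv σ hσ => (hatt v hv).1 σ hσ, fun σ hσ i => ?_⟩, hcong⟩
  refine res_limit hN (r := fun m => r m ⟨v0, hv0⟩) ?_ (fun m => hadm m _) σ hσ i
  intro m σ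
  obtain ⟨s, hs1, hs2⟩ := h3 σ m
  rw [← hs2]
  congr 1
  apply Subtype.ext
  rw [hN.trace, hs1]

end Pool.Agent.H499.PW
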