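import Mathlib

/-! Unipotent actions of a group on a vector space of characteristic `ℓ`: a descending chain of subgroups, each
in the kernels of all homomorphisms of the previous one to `ℤ / ℓ`, acts trivially after as many steps as the
dimension. -/

set_option autoImplicit false
set_option linter.all false

namespace Pool.Agent.H499.PW

open Module

theorem exists_fixed' {G Q : Type*} [Group G] [AddCommGroup Q] [DistribMulAction G Q] (ℓ : ℕ) [Fact ℓ.Prime]
    [Module (ZMod ℓ) Q] (horb : ∀ q : Q, (MulAction.orbit G q).Finite)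
    (hp : ∀ g : G, ∃ e : ℕ, ∀ q : Q, g ^ (ℓ ^ e) • q = q) (hne : ∃ q : Q, q ≠ 0) :
    ∃ b : Q, b ≠ 0 ∧ ∀ g : G, g • b = b := by
  classical
  obtain ⟨q0, hq0⟩ := hne
  set Y : Submodule (ZMod ℓ) Q := Submodule.span (ZMod ℓ) (MulAction.orbit G q0) with hY
  haveI : Finite (MulAction.orbit G q0) := (horb q0).to_subtype
  haveI hYf : Module.Finite (ZMod ℓ) Y := by
    rw [hY]
    exact Module.Finite.span_of_finite (ZMod ℓ) (horb q0)
  haveI : Finite Y := Module.finite_of_finite (ZMod ℓ)
  have hlin : ∀ g : G, ∀ y ∈ Y, g • y ∈ Y := by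
    intro g y hy
    let f : Q →ₗ[ZMod ℓ] Q := (DistribMulAction.toAddMonoidHom Q g).toZModLinearMap ℓ
    have h1 : f y ∈ Y.map f := Submodule.mem_map_of_mem hy
    rw [hY, Submodule.map_span] at h1
    refine (Submodule.span_mono ?_) h1
    rintro _ ⟨_, ⟨h, rfl⟩, rfl⟩
    exact ⟨g * h, mul_smul g h q0⟩
  letI act : MulAction G Y :=
    { smul := fun g y => ⟨g • (y : Q), hlin g y y.2⟩
      one_smul := fun y => Subtype.ext (one_smul G (y : Q))
      mul_smul := fun g h y => Subtype.ext (mul_smul g h (y : Q)) }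
  have hact : ∀ (g : G) (y : Y), ((g • y : Y) : Q) = g • (y : Q) := fun _ _ => rfl
  have hpg : IsPGroup ℓ (MulAction.toPermHom G Y).range := by
    rintro ⟨_, g, rfl⟩
    obtain ⟨e, he⟩ := hp g
    refine ⟨e, ?_⟩
    apply Subtype.ext
    show (MulAction.toPermHom G Y g) ^ (ℓ ^ e) = 1
    rw [← map_pow]
    apply Equiv.Perm.ext
    intro y
    show g ^ (ℓ ^ e) • y = y
    apply Subtype.ext
    rw [hact, he]
  have hcard : ℓ ∣ Nat.card Y := by
    rw [Module.natCard_eq_pow_finrank (K := ZMod ℓ), Nat.card_zmod]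
    refine dvd_pow_self ℓ ?_
    haveI : Nontrivial Y := ⟨⟨⟨q0, Submodule.subset_span (MulAction.mem_orbit_self q0)⟩, 0, fun h =>
      hq0 (congrArg Subtype.val h)⟩⟩
    exact (Module.finrank_pos (R := ZMod ℓ) (M := Y)).ne'
  have h0 : (0 : Y) ∈ MulAction.fixedPoints (MulAction.toPermHom G Y).range Y := by
    rintro ⟨_, g, rfl⟩
    apply Subtype.ext
    show g • ((0 : Y) : Q) = ((0 : Y) : Q)
    rw [Submodule.coe_zero, smul_zero]
  obtain ⟨b, hb, hb0⟩ := hpg.exists_fixed_point_of_prime_dvd_card_of_fixed_point Y hcard h0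
  refine ⟨b, fun h => hb0 (Subtype.ext h.symm), fun g => ?_⟩
  exact congrArg Subtype.val (hb ⟨_, g, rfl⟩)

/-- an `ℓ`-group acting on a nonzero group of exponent `ℓ` has a nonzero fixed element -/
theorem exists_fixed {G Q : Type*} [Group G] [AddCommGroup Q] [DistribMulAction G Q] (ℓ : ℕ) [Fact ℓ.Prime]
    (hℓ : ∀ q : Q, ℓ • q = 0) (horb : ∀ q : Q, (MulAction.orbit G q).Finite)
    (hp : ∀ g : G, ∃ e : ℕ, ∀ q : Q, g ^ (ℓ ^ e) • q = q) (hne : ∃ q : Q, q ≠ 0) :
    ∃ b : Q, b ≠ 0 ∧ ∀ g : G, g • b = b :=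
  @exists_fixed' G Q _ _ _ ℓ _ (AddCommGroup.zmodModule hℓ) horb hp hne

theorem exists_addHom' {Q : Type*} [AddCommGroup Q] (ℓ : ℕ) [Fact ℓ.Prime] [Module (ZMod ℓ) Q] (q : Q)
    (hq : q ≠ 0) : ∃ φ : Q →+ ZMod ℓ, φ q ≠ 0 := by
  by_contra h
  push Not at h
  exact hq ((Module.forall_dual_apply_eq_zero_iff (ZMod ℓ) q).1 fun f => h f.toAddMonoidHom)

theorem exists_addHom {Q : Type*} [AddCommGroup Q] (ℓ : ℕ) [Fact ℓ.Prime] (hℓ : ∀ q : Q, ℓ • q = 0) (q : Q)
    (hq : q ≠ 0) : ∃ φ : Q →+ ZMod ℓ, φ q ≠ 0 :=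
  @exists_addHom' Q _ ℓ _ (AddCommGroup.zmodModule hℓ) q hq

section filt

variable {ℓ : ℕ} [Fact ℓ.Prime] {k W G : Type*} [Field k] [CharP k ℓ] [AddCommGroup W] [Module k W]
  [FiniteDimensional k W] [Group G]

theorem chain_aux (ψ : G →* Module.End k W) (hfin : (Set.range ψ).Finite) (V : ℕ → Subgroup G)
    (hanti : Antitone V) (hV0 : ∀ g ∈ V 0, ∃ e : ℕ, ψ g ^ (ℓ ^ e) = 1)
    (hstep : ∀ i, ∀ χ : V i →* Multiplicative (ZMod ℓ), (∀ g : V i, ψ g = 1 → χ g = 1) →
      ∀ g : V i, (g : G) ∈ V (i + 1) → χ g = 1) (d : ℕ) :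
    ∀ F : Submodule k W, (∀ g ∈ V 0, ∀ x ∈ F, ψ g x ∈ F) → finrank k (W ⧸ F) ≤ d →
      ∀ g ∈ V d, ∀ x, ψ g x - x ∈ F := by
  classical
  induction d with
  | zero =>
    intro F _ hF g _ x
    have h1 : finrank k (W ⧸ F) = 0 := by omega
    haveI := Module.finrank_zero_iff.1 h1
    rw [← Submodule.Quotient.mk_eq_zero F]
    exact Subsingleton.elim _ _
  | succ d ih =>
    intro F hst hF g hg x
    by_cases htop : F = ⊤
    · rw [htop]
      exact Submodule.mem_top
    -- a vector which is fixed modulo `F`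
    obtain ⟨w, hwF, hw⟩ : ∃ w : W, w ∉ F ∧ ∀ g ∈ V 0, ψ g w - w ∈ F := by
      letI act : DistribMulAction (V 0) (W ⧸ F) :=
        { smul := fun g q => F.mapQ F (ψ g) (fun y hy => hst g g.2 y hy) q
          one_smul := by
            intro q
            obtain ⟨y, rfl⟩ := Submodule.mkQ_surjective F q
            show F.mapQ F (ψ (1 : V 0)) _ (Submodule.Quotient.mk y) = Submodule.Quotient.mk y
            rw [Submodule.mapQ_apply]
            congr 1
            rw [OneMemClass.coe_one, map_one]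
            rfl
          mul_smul := by
            intro a b q
            obtain ⟨y, rfl⟩ := Submodule.mkQ_surjective F q
            show F.mapQ F (ψ ((a * b : V 0) : G)) _ (Submodule.Quotient.mk y) =
              F.mapQ F (ψ a) _ (F.mapQ F (ψ b) _ (Submodule.Quotient.mk y))
            rw [Submodule.mapQ_apply, Submodule.mapQ_apply, Submodule.mapQ_apply, Subgroup.coe_mul, map_mul]
            rfl
          smul_zero := fun a => map_zero _
          smul_add := fun a x y => map_add _ x y }
      have hact : ∀ (a : V 0) (y : W), a • (Submodule.Quotient.mk y : W ⧸ F) = Submodule.Quotient.mk (ψ a y) :=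
        fun a y => rfl
      obtain ⟨b, hb0, hb⟩ := exists_fixed (G := V 0) (Q := W ⧸ F) ℓ (by
          intro q
          rw [← Nat.cast_smul_eq_nsmul k, CharP.cast_eq_zero k ℓ, zero_smul]) (by
          intro q
          obtain ⟨y, rfl⟩ := Submodule.mkQ_surjective F q
          refine (hfin.image fun f => (Submodule.Quotient.mk (f y) : W ⧸ F)).subset ?_
          rintro _ ⟨a, rfl⟩
          exact ⟨ψ a, ⟨a, rfl⟩, rfl⟩) (by
          intro a
          obtain ⟨e, he⟩ := hV0 a a.2
          refine ⟨e, fun q => ?_⟩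
          obtain ⟨y, rfl⟩ := Submodule.mkQ_surjective F q
          show (a ^ ℓ ^ e) • (Submodule.Quotient.mk y : W ⧸ F) = Submodule.Quotient.mk y
          rw [hact, Subgroup.coe_pow, map_pow, he]
          rfl) (by
          by_contra hcon
          push Not at hcon
          apply htop
          rw [eq_top_iff]
          intro y _
          exact (Submodule.Quotient.mk_eq_zero F).1 (hcon _))
      obtain ⟨w, rfl⟩ := Submodule.mkQ_surjective F b
      refine ⟨w, fun h => hb0 ((Submodule.Quotient.mk_eq_zero F).2 h), fun g hg => ?_⟩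
      have h1 := hb ⟨g, hg⟩
      exact (Submodule.Quotient.eq F).1 h1
    set F' : Submodule k W := F ⊔ Submodule.span k {w} with hF'
    have hst' : ∀ g ∈ V 0, ∀ x ∈ F', ψ g x ∈ F' := by
      intro g hg x hx
      obtain ⟨f, hf, z, hz, rfl⟩ := Submodule.mem_sup.1 hx
      obtain ⟨c, rfl⟩ := Submodule.mem_span_singleton.1 hz
      rw [map_add, map_smul]
      refine F'.add_mem (Submodule.mem_sup_left (hst g hg f hf)) (F'.smul_mem c ?_)
      have e : ψ g w = (ψ g w - w) + w := by rw [sub_add_cancel]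
      rw [e]
      exact F'.add_mem (Submodule.mem_sup_left (hw g hg))
        (Submodule.mem_sup_right (Submodule.mem_span_singleton_self w))
    have hlt : finrank k (W ⧸ F') ≤ d := by
      have h1 : F < F' := by
        refine lt_of_le_of_ne le_sup_left fun h => hwF ?_
        rw [h]
        exact Submodule.mem_sup_right (Submodule.mem_span_singleton_self w)
      have h2 := Submodule.finrank_lt_finrank_of_lt h1
      have h3 := Submodule.finrank_quotient_add_finrank F
      have h4 := Submodule.finrank_quotient_add_finrank F'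
      omega
    have hIH := ih F' hst' hlt
    by_contra hcon
    -- a homomorphism to `ZMod ℓ`
    have hne : (Submodule.Quotient.mk (ψ g x - x) : W ⧸ F) ≠ 0 := by
      rw [Ne, Submodule.Quotient.mk_eq_zero]
      exact hcon
    obtain ⟨φ, hφ⟩ := exists_addHom ℓ (by
      intro q
      rw [← Nat.cast_smul_eq_nsmul k, CharP.cast_eq_zero k ℓ, zero_smul]) _ hne
    let χ : V d →* Multiplicative (ZMod ℓ) :=
      { toFun := fun a => Multiplicative.ofAdd (φ (Submodule.Quotient.mk (ψ a x - x)))
        map_one' := by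
          rw [OneMemClass.coe_one, map_one]
          have : (1 : Module.End k W) x - x = 0 := sub_self x
          rw [this, Submodule.Quotient.mk_zero, map_zero]
          rfl
        map_mul' := by
          intro a b
          rw [← ofAdd_add, ← map_add, ← Submodule.Quotient.mk_add]
          congr 2
          rw [Submodule.Quotient.eq, Subgroup.coe_mul, map_mul]
          have h1 := hIH b b.2 x
          obtain ⟨f, hf, z, hz, hfz⟩ := Submodule.mem_sup.1 h1
          obtain ⟨c, rfl⟩ := Submodule.mem_span_singleton.1 hz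
          have ha0 : (a : G) ∈ V 0 := hanti (Nat.zero_le d) a.2
          have e : (ψ (a : G) * ψ (b : G)) x - x - (ψ (a : G) x - x + (ψ (b : G) x - x)) =
              ψ (a : G) (ψ (b : G) x - x) - (ψ (b : G) x - x) := by
            rw [map_sub]
            show ψ (a : G) (ψ (b : G) x) - x - _ = _
            abel
          rw [e, ← hfz, map_add, map_smul]
          have e2 : ψ (a : G) f + c • ψ (a : G) w - (f + c • w) = (ψ (a : G) f - f) + c • (ψ (a : G) w - w) := by
            rw [smul_sub]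
            abel
          rw [e2]
          exact F.add_mem (F.sub_mem (hst _ ha0 f hf) hf) (F.smul_mem c (hw _ ha0)) }
    have hg' : g ∈ V d := hanti (Nat.le_succ d) hg
    have h2 := hstep d χ (by
      intro a ha
      show Multiplicative.ofAdd (φ (Submodule.Quotient.mk (ψ a x - x))) = 1
      have : ψ (a : G) x - x = 0 := by
        rw [ha]
        exact sub_self x
      rw [this, Submodule.Quotient.mk_zero, map_zero]
      rfl) ⟨g, hg'⟩ hg
    exact hφ h2

theorem chain_trivial (ψ : G →* Module.End k W) (hfin : (Set.range ψ).Finite) (V : ℕ → Subgroup G)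
    (hanti : Antitone V) (hV0 : ∀ g ∈ V 0, ∃ e : ℕ, ψ g ^ (ℓ ^ e) = 1)
    (hstep : ∀ i, ∀ χ : V i →* Multiplicative (ZMod ℓ), (∀ g : V i, ψ g = 1 → χ g = 1) →
      ∀ g : V i, (g : G) ∈ V (i + 1) → χ g = 1) (d : ℕ) (hd : finrank k W ≤ d) :
    ∀ g ∈ V d, ψ g = 1 := by
  intro g hg
  ext x
  have h1 := chain_aux ψ hfin V hanti hV0 hstep d ⊥ (by
    intro g _ x hx
    rw [Submodule.mem_bot] at hx ⊢
    rw [hx, map_zero]) (by
    have := Submodule.finrank_quotient_add_finrank (⊥ : Submodule k W)
    omega) g hg x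
  rw [Submodule.mem_bot, sub_eq_zero] at h1
  exact h1

end filt

end Pool.Agent.H499.PW
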