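import Pool.Agent.H499.PW.HM
import Pool.Agent.H499.PW.Det
import Pool.Agent.H499.CM.Sharp

/-! A finite set of places which determines the traces of all representations over all local rings with totally
ordered ideals. -/

set_option autoImplicit false
set_option linter.all false

namespace Pool.Agent.H499.PW

open Module IsLocalRing Polynomial Matrix NumberField IsDedekindDomain
open Pool.Agent.W401.Cheb (GK IsFrob IsInert)
open Pool.Agent.H499.CM (eq_of_frob isOpen_of_ker isClosed_of_ker finite_range_of_ker)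

variable {K : Type} [Field K] [NumberField K]

/-- `r` has open kernel, is unramified outside `S`, and for `σ` in `U` the characteristic polynomial of
`r σ` is `(X - 1) ^ n` modulo the maximal ideal. -/
def Adm {n : ℕ} {A : Type} [CommRing A] [IsLocalRing A] (S : Set (HeightOneSpectrum (𝓞 K)))
    (U : Subgroup (GK K)) (r : GK K →* GL (Fin n) A) : Prop :=
  IsOpen (r.ker : Set (GK K)) ∧ (∀ v ∉ S, ∀ σ, IsInert v σ → r σ = 1) ∧
    ∀ σ ∈ U, ∀ i, ((r σ : Matrix (Fin n) (Fin n) A).charpoly - (X - 1) ^ n).coeff i ∈ maximalIdeal A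

section tower

variable (S : Set (HeightOneSpectrum (𝓞 K))) (ℓ : ℕ) (U : Subgroup (GK K))

/-- the subgroups which contain the inertia groups outside `S` -/
def big (D : ℕ) : Set (Subgroup (GK K)) :=
  {H : Subgroup (GK K) | IsOpen (H : Set (GK K)) ∧ H.index ≤ D ∧ ∀ v ∉ S, ∀ σ, IsInert v σ → σ ∈ H}

/-- the chain of subgroups -/
noncomputable def tower : ℕ → Subgroup (GK K)
  | 0 => U
  | i + 1 => sInf (big S (ℓ * (tower i).index))

variable {S ℓ U}

theorem isOpen_sInf (𝒮 : Set (Subgroup (GK K))) (h𝒮 : 𝒮.Finite) (h : ∀ H ∈ 𝒮, IsOpen (H : Set (GK K))) :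
    IsOpen ((sInf 𝒮 : Subgroup (GK K)) : Set (GK K)) := by
  rw [Subgroup.coe_sInf]
  exact h𝒮.isOpen_biInter h

theorem tower_open (hS : S.Finite) (hU : IsOpen (U : Set (GK K))) (i : ℕ) :
    IsOpen ((tower S ℓ U i : Subgroup (GK K)) : Set (GK K)) := by
  cases i with
  | zero => exact hU
  | succ i => exact isOpen_sInf _ (finite_open S hS _) fun H hH => hH.1

theorem tower_inert (hUI : ∀ v ∉ S, ∀ σ, IsInert v σ → σ ∈ U) (i : ℕ) :
    ∀ v ∉ S, ∀ σ, IsInert v σ → σ ∈ tower S ℓ U i := by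
  cases i with
  | zero => exact hUI
  | succ i =>
    intro v hv σ hσ
    show σ ∈ sInf _
    rw [Subgroup.mem_sInf]
    exact fun H hH => hH.2.2 v hv σ hσ

theorem tower_anti (hℓ : 0 < ℓ) (hS : S.Finite) (hU : IsOpen (U : Set (GK K)))
    (hUI : ∀ v ∉ S, ∀ σ, IsInert v σ → σ ∈ U) : Antitone (tower S ℓ U) := by
  refine antitone_nat_of_succ_le fun i => ?_
  refine sInf_le ⟨tower_open hS hU i, ?_, tower_inert hUI i⟩
  exact Nat.le_mul_of_pos_left _ hℓ

theorem tower_step [Fact ℓ.Prime] (hS : S.Finite) (hU : IsOpen (U : Set (GK K)))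
    (hUI : ∀ v ∉ S, ∀ σ, IsInert v σ → σ ∈ U) (N : Subgroup (GK K)) (hN : IsOpen (N : Set (GK K)))
    (hNI : ∀ v ∉ S, ∀ σ, IsInert v σ → σ ∈ N) (i : ℕ) (χ : tower S ℓ U i →* Multiplicative (ZMod ℓ))
    (hχ : ∀ g : tower S ℓ U i, (g : GK K) ∈ N → χ g = 1) (g : tower S ℓ U i)
    (hg : (g : GK K) ∈ tower S ℓ U (i + 1)) : χ g = 1 := by
  set H : Subgroup (GK K) := χ.ker.map (tower S ℓ U i).subtype with hH
  have hHbig : H ∈ big S (ℓ * (tower S ℓ U i).index) := by
    have hsub : tower S ℓ U i ⊓ N ≤ H := by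
      rintro x ⟨hx1, hx2⟩
      exact ⟨⟨x, hx1⟩, hχ _ hx2, rfl⟩
    refine ⟨?_, ?_, ?_⟩
    · refine Subgroup.isOpen_mono hsub ?_
      rw [Subgroup.coe_inf]
      exact (tower_open hS hU i).inter hN
    · rw [hH, Subgroup.index_map_subtype]
      refine Nat.mul_le_mul_right _ ?_
      rw [Subgroup.index_ker]
      refine le_trans (Finite.card_subtype_le _) ?_
      exact le_of_eq (Nat.card_zmod ℓ)
    · intro v hv σ hσ
      exact hsub ⟨tower_inert hUI i v hv σ hσ, hNI v hv σ hσ⟩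
  have h1 : (g : GK K) ∈ H := (Subgroup.mem_sInf.1 hg) H hHbig
  obtain ⟨g', hg', e⟩ := h1
  have e2 : g' = g := Subtype.ext e
  rw [← e2]
  exact hg'

end tower

/-- every coset contains the inverse of a Frobenius element -/
theorem exists_frob_coset (S : Set (HeightOneSpectrum (𝓞 K))) (hS : S.Finite) (V : Subgroup (GK K))
    (hV : IsOpen (V : Set (GK K))) (g : GK K) : ∃ w ∉ S, ∃ τ, IsFrob w τ ∧ τ⁻¹ * g⁻¹ ∈ V := by
  classical
  by_contra hcon
  push Not at hcon
  have hclo : IsClosed (V : Set (GK K)) := Subgroup.isClosed_of_isOpen _ hV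
  have hcont : Continuous fun x : GK K => decide (x * g⁻¹ ∈ V) := by
    have hc : IsClopen {x : GK K | x * g⁻¹ ∈ V} :=
      ⟨hclo.preimage (continuous_mul_const g⁻¹), hV.preimage (continuous_mul_const g⁻¹)⟩
    rw [continuous_discrete_rng]
    intro b
    cases b
    · have : (fun x : GK K => decide (x * g⁻¹ ∈ V)) ⁻¹' {false} = {x : GK K | x * g⁻¹ ∈ V}ᶜ := by
        ext x
        simp
      rw [this]
      exact hc.compl.isOpen
    · have : (fun x : GK K => decide (x * g⁻¹ ∈ V)) ⁻¹' {true} = {x : GK K | x * g⁻¹ ∈ V} := by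
        ext x
        simp
      rw [this]
      exact hc.isOpen
  have h1 := eq_of_frob (K := K) (fun x : GK K => decide (x * g⁻¹ ∈ V)) (fun _ => false) hcont continuous_const
    S hS (fun v hv σ hσ => decide_eq_false (hcon v hv σ hσ))
  have h2 := congrFun h1 g
  simp at h2

/-- the representation is unipotent modulo the maximal ideal also on the subgroup generated by `U` and the inertia
groups -/
theorem exists_big_U (S : Set (HeightOneSpectrum (𝓞 K))) (U : Subgroup (GK K)) (hU : IsOpen (U : Set (GK K))) :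
    ∃ U' : Subgroup (GK K), IsOpen (U' : Set (GK K)) ∧ (∀ v ∉ S, ∀ σ, IsInert v σ → σ ∈ U') ∧
      ∀ σ ∈ U', ∃ u ∈ U, ∀ (H : Type) [Group H] (r : GK K →* H), (∀ v ∉ S, ∀ σ, IsInert v σ → r σ = 1) →
        r σ = r u := by
  set I : Subgroup (GK K) := Subgroup.normalClosure {σ | ∃ v ∉ S, IsInert v σ} with hI
  refine ⟨U ⊔ I, Subgroup.isOpen_mono le_sup_left hU, ?_, ?_⟩
  · intro v hv σ hσ
    exact (le_sup_right : I ≤ U ⊔ I) (Subgroup.subset_normalClosure ⟨v, hv, hσ⟩)
  · intro σ hσ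
    obtain ⟨u, hu, i, hi, rfl⟩ := Subgroup.mem_sup_of_normal_right.1 hσ
    refine ⟨u, hu, fun H _ r hr => ?_⟩
    have h1 : I ≤ r.ker := by
      rw [hI]
      refine Subgroup.normalClosure_le_normal ?_
      rintro σ ⟨v, hv, hσ⟩
      exact hr v hv σ hσ
    rw [map_mul, show r i = 1 from h1 hi, mul_one]

/-- **Finite determination.** -/
theorem exists_P (S : Set (HeightOneSpectrum (𝓞 K))) (hS : S.Finite) (U : Subgroup (GK K))
    (hU : IsOpen (U : Set (GK K))) (ℓ : ℕ) [Fact ℓ.Prime] (n : ℕ) :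
    ∃ P : Finset (HeightOneSpectrum (𝓞 K)), (∀ v ∈ P, v ∉ S) ∧
      ∀ (A : Type) [CommRing A] [IsLocalRing A], (∀ a b : A, a ∣ b ∨ b ∣ a) → (ℓ : A) ∈ maximalIdeal A →
        ∀ r r' : GK K →* GL (Fin n) A, Adm S U r → Adm S U r' →
          (∀ v ∈ P, ∀ σ, IsFrob v σ → (r σ⁻¹ : Matrix (Fin n) (Fin n) A).trace =
            (r' σ⁻¹ : Matrix (Fin n) (Fin n) A).trace) →
          ∀ σ, (r σ : Matrix (Fin n) (Fin n) A).trace = (r' σ : Matrix (Fin n) (Fin n) A).trace := by
  classical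
  obtain ⟨U', hU', hUI, hUu⟩ := exists_big_U S U hU
  set V := tower S ℓ U' with hV
  have hVo : IsOpen ((V (2 * n ^ 2) : Subgroup (GK K)) : Set (GK K)) := tower_open hS hU' _
  haveI : Finite (GK K ⧸ V (2 * n ^ 2)) := Subgroup.quotient_finite_of_isOpen _ hVo
  haveI : Fintype (GK K ⧸ V (2 * n ^ 2)) := Fintype.ofFinite _
  choose w hwS τ hτ hτV using fun q : GK K ⧸ V (2 * n ^ 2) => exists_frob_coset S hS _ hVo q.out⁻¹
  refine ⟨Finset.univ.image w, ?_, ?_⟩
  · intro v hv
    obtain ⟨q, -, rfl⟩ := Finset.mem_image.1 hv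
    exact hwS q
  · intro A _ _ hA hℓ r r' hr hr' h
    let R : GK K →* Matrix (Fin n) (Fin n) A := (Units.coeHom _).comp r
    let R' : GK K →* Matrix (Fin n) (Fin n) A := (Units.coeHom _).comp r'
    have hfin : ∀ r : GK K →* GL (Fin n) A, IsOpen (r.ker : Set (GK K)) →
        (Set.range ((Units.coeHom _).comp r : GK K →* Matrix (Fin n) (Fin n) A)).Finite := by
      intro r hr
      refine ((finite_range_of_ker hr).image fun u : GL (Fin n) A => (u : Matrix (Fin n) (Fin n) A)).subset ?_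
      rintro _ ⟨g, rfl⟩
      exact ⟨_, ⟨g, rfl⟩, rfl⟩
    refine trace_determ hA hℓ R R' (hfin r hr.1) (hfin r' hr'.1) V
      (tower_anti (Fact.out : ℓ.Prime).pos hS hU' hUI) ?_ ?_ (Set.range fun q => (τ q)⁻¹) ?_ ?_
    · intro g hg
      obtain ⟨u, hu, hgu⟩ := hUu g hg
      have h1 := hgu _ r hr.2.1
      have h2 := hgu _ r' hr'.2.1
      refine ⟨?_, ?_⟩
      · show ResU ((r g : GL (Fin n) A) : Matrix (Fin n) (Fin n) A)
        rw [h1]
        exact hr.2.2 u hu
      · show ResU ((r' g : GL (Fin n) A) : Matrix (Fin n) (Fin n) A)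
        rw [h2]
        exact hr'.2.2 u hu
    · intro i χ hχ g hg
      refine tower_step hS hU' hUI (r.ker ⊓ r'.ker) ?_ ?_ i χ ?_ g hg
      · rw [Subgroup.coe_inf]
        exact hr.1.inter hr'.1
      · intro v hv σ hσ
        exact ⟨hr.2.1 v hv σ hσ, hr'.2.1 v hv σ hσ⟩
      · rintro g ⟨h1, h2⟩
        refine hχ g ?_ ?_
        · show ((r g : GL (Fin n) A) : Matrix (Fin n) (Fin n) A) = 1
          rw [show r g = 1 from h1]
          rfl
        · show ((r' g : GL (Fin n) A) : Matrix (Fin n) (Fin n) A) = 1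
          rw [show r' g = 1 from h2]
          rfl
    · intro g
      set q : GK K ⧸ V (2 * n ^ 2) := QuotientGroup.mk g⁻¹ with hq
      refine ⟨(τ q)⁻¹ * g⁻¹, ?_, ⟨q, by group⟩⟩
      have h1 := hτV q
      rw [inv_inv] at h1
      have h2 : q.out⁻¹ * g⁻¹ ∈ V (2 * n ^ 2) := by
        rw [← QuotientGroup.eq, QuotientGroup.out_eq']
      have h3 := (V (2 * n ^ 2)).mul_mem h1 h2
      have e : (τ q)⁻¹ * q.out * (q.out⁻¹ * g⁻¹) = (τ q)⁻¹ * g⁻¹ := by group
      rwa [e] at h3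
    · rintro _ ⟨q, rfl⟩
      exact h (w q) (Finset.mem_image_of_mem _ (Finset.mem_univ q)) (τ q) (hτ q)

end Pool.Agent.H499.PW
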