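import Pool.Graph.R_seed8.Y800.HM
import Pool.Agent.H499.CM.Unr

/-! The theorem of Hermite and Minkowski over a number field `K`: there are only finitely many open subgroups of
the absolute Galois group of `K` of bounded index which contain the inertia groups at the places outside a finite
set. -/

set_option autoImplicit false
set_option linter.all false

namespace Pool.Agent.H499.PW

open NumberField IsDedekindDomain Module
open Pool.Agent.W401.Cheb (GK IsFrob IsInert)

open scoped Pointwise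

theorem fi_of_open {G : Type*} [Group G] [TopologicalSpace G] [IsTopologicalGroup G] [CompactSpace G]
    (H : Subgroup G) (hH : IsOpen (H : Set G)) : H.FiniteIndex := by
  haveI := Subgroup.quotient_finite_of_isOpen _ hH
  exact Subgroup.finiteIndex_of_finite_quotient

section abs

variable (Ω : Type) [Field Ω] [CharZero Ω] [IsGalois ℚ Ω]

/-- Hermite-Minkowski over the rational numbers (after `Pool.Agent.Y800.HM.finite_subgroups`) -/
theorem finite_normal (S : Finset ℕ) (hS : ∀ p ∈ S, p.Prime) (D : ℕ) :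
    {H : Subgroup Gal(Ω/ℚ) | H.Normal ∧ IsOpen (H : Set Gal(Ω/ℚ)) ∧ H.index ≤ D ∧
      ∀ p : ℕ, p.Prime → p ∉ S → ∀ P : Ideal (𝓞 Ω), P.IsMaximal → (p : 𝓞 Ω) ∈ P →
        ∀ τ : Gal(Ω/ℚ), (∀ x : 𝓞 Ω, τ • x - x ∈ P) → τ ∈ H}.Finite := by
  classical
  set N : ℕ := (D * ∏ p ∈ S, p) ^ D with hN
  have hfin := (NumberField.finite_of_discr_bdd Ω N).image
    (fun K : {F : IntermediateField ℚ Ω // FiniteDimensional ℚ F} => K.1)
  refine Set.Finite.of_finite_image (f := fun H : Subgroup Gal(Ω/ℚ) => IntermediateField.fixedField H)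
    (hfin.subset ?_) ?_
  · rintro _ ⟨H, ⟨hn, ho, hD, hI⟩, rfl⟩
    have hclosed : IsClosed (H : Set Gal(Ω/ℚ)) := Subgroup.isClosed_of_isOpen _ ho
    have hfix : (IntermediateField.fixedField H).fixingSubgroup = H :=
      InfiniteGalois.fixingSubgroup_fixedField ⟨H, hclosed⟩
    have hfd : FiniteDimensional ℚ (IntermediateField.fixedField H) :=
      (InfiniteGalois.isOpen_iff_finite (IntermediateField.fixedField H)).1 (by rw [hfix]; exact ho)
    have hgal : IsGalois ℚ (IntermediateField.fixedField H) :=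
      (InfiniteGalois.normal_iff_isGalois (IntermediateField.fixedField H)).1 (by rw [hfix]; exact hn)
    have hnf : NumberField (IntermediateField.fixedField H) := ⟨⟩
    refine ⟨⟨IntermediateField.fixedField H, hfd⟩, ?_, rfl⟩
    have h1 := Pool.Agent.Y800.HM.discr_le (IntermediateField.fixedField H) S hS (fun p hp hpS =>
      Pool.Agent.Y800.HM.inert_triv H (IntermediateField.fixedField H) hfix p (hI p hp hpS))
    have h2 : finrank ℚ (IntermediateField.fixedField H) ≤ D := by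
      rw [IntermediateField.finrank_eq_fixingSubgroup_index, hfix]
      exact hD
    have hprod : 1 ≤ ∏ p ∈ S, p := Finset.prod_pos fun p hp => (hS p hp).pos
    have h3 : (discr (IntermediateField.fixedField H)).natAbs ≤ N := by
      refine h1.trans ?_
      rw [hN]
      have hpos : 1 ≤ D := by
        refine le_trans ?_ h2
        exact finrank_pos
      exact (Nat.pow_le_pow_left (Nat.mul_le_mul_right _ h2) _).trans
        (Nat.pow_le_pow_right (Nat.mul_pos hpos hprod) h2)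
    show |discr (IntermediateField.fixedField H)| ≤ (N : ℤ)
    rw [Int.abs_eq_natAbs]
    exact_mod_cast h3
  · rintro H ⟨_, ho, _⟩ H' ⟨_, ho', _⟩ h
    have hfix : (IntermediateField.fixedField H).fixingSubgroup = H :=
      InfiniteGalois.fixingSubgroup_fixedField ⟨H, Subgroup.isClosed_of_isOpen _ ho⟩
    have hfix' : (IntermediateField.fixedField H').fixingSubgroup = H' :=
      InfiniteGalois.fixingSubgroup_fixedField ⟨H', Subgroup.isClosed_of_isOpen _ ho'⟩
    rw [← hfix, ← hfix']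
    have h2 : IntermediateField.fixedField H = IntermediateField.fixedField H' := h
    rw [h2]

/-- subgroups which contain a member of a finite set of subgroups of finite index -/
theorem finite_above {G : Type*} [Group G] (𝒩 : Set (Subgroup G)) (h𝒩 : 𝒩.Finite)
    (hn : ∀ N ∈ 𝒩, N.Normal ∧ N.FiniteIndex) : {H : Subgroup G | ∃ N ∈ 𝒩, N ≤ H}.Finite := by
  have e : {H : Subgroup G | ∃ N ∈ 𝒩, N ≤ H} = ⋃ N ∈ 𝒩, {H | N ≤ H} := by
    ext H
    simp
  rw [e]
  refine h𝒩.biUnion fun N hN => ?_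
  haveI := (hn N hN).1
  haveI := (hn N hN).2
  haveI : Finite (G ⧸ N) := inferInstance
  haveI : Finite (Subgroup (G ⧸ N)) := inferInstance
  refine Set.Finite.of_finite_image (f := fun H : Subgroup G => H.map (QuotientGroup.mk' N)) (Set.toFinite _) ?_
  intro H hH H' hH' h
  have h1 : H.map (QuotientGroup.mk' N) = H'.map (QuotientGroup.mk' N) := h
  have h2 := congrArg (Subgroup.comap (QuotientGroup.mk' N)) h1
  have hk : ∀ H : Subgroup G, N ≤ H → (H.map (QuotientGroup.mk' N)).comap (QuotientGroup.mk' N) = H := by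
    intro H hH
    rw [Subgroup.comap_map_eq, QuotientGroup.ker_mk']
    exact sup_eq_left.2 hH
  rw [hk H hH, hk H' hH'] at h2
  exact h2

/-- the index of the normal core -/
theorem core_index_le {G : Type*} [Group G] (H : Subgroup G) [H.FiniteIndex] (D : ℕ) (hD : H.index ≤ D) :
    H.normalCore.index ≤ D.factorial := by
  haveI : Finite (G ⧸ H) := inferInstance
  rw [Subgroup.normalCore_eq_ker, Subgroup.index_ker]
  refine le_trans (Finite.card_subtype_le _) ?_
  rw [Nat.card_perm]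
  exact Nat.factorial_le hD

end abs

section rat

variable {Ω : Type} [Field Ω] [CharZero Ω] [IsGalois ℚ Ω]

theorem exists_moved' (U : Subgroup Gal(Ω/ℚ)) (hU : IsClosed (U : Set Gal(Ω/ℚ))) (g : Gal(Ω/ℚ)) (hg : g ∉ U) :
    ∃ x : 𝓞 Ω, (∀ u ∈ U, u • x = x) ∧ g • x ≠ x := by
  let H : ClosedSubgroup Gal(Ω/ℚ) := ⟨U, hU⟩
  have h1 := InfiniteGalois.fixingSubgroup_fixedField H
  have h2 : g ∉ (IntermediateField.fixedField H.toSubgroup).fixingSubgroup := by
    rw [h1]
    exact hg
  rw [IntermediateField.mem_fixingSubgroup_iff] at h2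
  push Not at h2
  obtain ⟨y, hy, hgy⟩ := h2
  have hy' : ∀ u ∈ U, u y = y := fun u hu => hy ⟨u, hu⟩
  have halg : IsAlgebraic ℤ y := by
    have h3 : IsAlgebraic ℚ y := Algebra.IsAlgebraic.isAlgebraic y
    exact (IsFractionRing.isAlgebraic_iff ℤ ℚ Ω).2 h3
  obtain ⟨b, hb, hint⟩ := halg.exists_integral_multiple
  have hb0 : ((b : ℤ) : Ω) ≠ 0 := by exact_mod_cast hb
  refine ⟨⟨b • y, hint⟩, fun u hu => ?_, fun h => hgy ?_⟩
  · apply RingOfIntegers.ext
    show u (b • y) = b • y
    rw [map_zsmul, hy' u hu]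
  · have h3 : g (b • y) = b • y := congrArg (fun z : 𝓞 Ω => (z : Ω)) h
    rw [map_zsmul, zsmul_eq_mul, zsmul_eq_mul] at h3
    exact mul_left_cancel₀ hb0 h3

theorem finite_primes (δ : 𝓞 Ω) (hδ : δ ≠ 0) :
    {p : ℕ | p.Prime ∧ ∃ Q : Ideal (𝓞 Ω), Q.IsMaximal ∧ (p : 𝓞 Ω) ∈ Q ∧ δ ∈ Q}.Finite := by
  have h1 : (Ideal.span {δ}).comap (algebraMap ℤ (𝓞 Ω)) ≠ ⊥ := by
    refine Ideal.comap_ne_bot_of_integral_mem hδ (Ideal.mem_span_singleton_self δ) ?_
    exact RingOfIntegers.isIntegral δ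
  obtain ⟨N, hN, hN0⟩ := Submodule.exists_mem_ne_zero_of_ne_bot h1
  refine (Set.finite_le_nat N.natAbs).subset ?_
  rintro p ⟨hp, Q, hQ, hpQ, hδQ⟩
  have hNQ : algebraMap ℤ (𝓞 Ω) N ∈ Q := (Ideal.span_singleton_le_iff_mem Q).2 hδQ hN
  refine Nat.le_of_dvd (Int.natAbs_pos.2 hN0) ?_
  by_contra hcon
  have hcop : IsCoprime (p : ℤ) N := by
    rw [Int.isCoprime_iff_gcd_eq_one]
    exact (Nat.Prime.coprime_iff_not_dvd hp).2 hcon
  obtain ⟨a, b, hab⟩ := hcop
  apply hQ.ne_top
  rw [Ideal.eq_top_iff_one]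
  have h2 : algebraMap ℤ (𝓞 Ω) (a * p + b * N) ∈ Q := by
    rw [map_add, map_mul, map_mul, map_natCast]
    exact Q.add_mem (Q.mul_mem_left _ hpQ) (Q.mul_mem_left _ hNQ)
  rwa [hab, map_one] at h2

/-- almost all prime numbers are unramified -/
theorem finite_ram' (U : Subgroup Gal(Ω/ℚ)) (hU : IsOpen (U : Set Gal(Ω/ℚ))) :
    {p : ℕ | p.Prime ∧ ∃ P : Ideal (𝓞 Ω), P.IsMaximal ∧ (p : 𝓞 Ω) ∈ P ∧
      ∃ τ : Gal(Ω/ℚ), (∀ x : 𝓞 Ω, τ • x - x ∈ P) ∧ τ ∉ U}.Finite := by
  classical
  haveI : CompactSpace Gal(Ω/ℚ) := inferInstance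
  haveI : Finite (Gal(Ω/ℚ) ⧸ U) := Subgroup.quotient_finite_of_isOpen _ hU
  choose! x hx1 hx2 using exists_moved' U (Subgroup.isClosed_of_isOpen _ hU)
  have hfin : ∀ q : Gal(Ω/ℚ) ⧸ U, {p : ℕ | p.Prime ∧ q.out ∉ U ∧ ∃ P : Ideal (𝓞 Ω), P.IsMaximal ∧
      (p : 𝓞 Ω) ∈ P ∧ q.out • x q.out - x q.out ∈ P}.Finite := by
    intro q
    by_cases hq : q.out ∈ U
    · convert Set.finite_empty
      ext v
      simp [hq]
    · refine (finite_primes (q.out • x q.out - x q.out) (sub_ne_zero.2 (hx2 _ hq))).subset ?_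
      rintro v ⟨hv, _, h⟩
      exact ⟨hv, h⟩
  refine (Set.finite_iUnion hfin).subset ?_
  rintro p ⟨hp, P, hP, hpP, σ, hσi, hσ⟩
  refine Set.mem_iUnion.2 ⟨(QuotientGroup.mk σ : Gal(Ω/ℚ) ⧸ U), ?_⟩
  obtain ⟨u, hu⟩ := QuotientGroup.mk_out_eq_mul U σ
  set g := (QuotientGroup.mk σ : Gal(Ω/ℚ) ⧸ U).out with hg
  have hgU : g ∉ U := by
    intro h
    apply hσ
    have : σ = g * (u : Gal(Ω/ℚ))⁻¹ := by rw [hu, mul_inv_cancel_right]
    rw [this]
    exact U.mul_mem h (U.inv_mem u.2)
  refine ⟨hp, hgU, P, hP, hpP, ?_⟩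
  have h1 : g • x g = σ • x g := by
    rw [hu, mul_smul, ← hu, hx1 g hgU u u.2]
  rw [h1]
  exact hσi _

end rat

section number_field

variable {K : Type} [Field K] [NumberField K]

instance galQ : IsGalois ℚ (AlgebraicClosure K) := by
  haveI : Algebra.IsAlgebraic ℚ (AlgebraicClosure K) :=
    Algebra.IsAlgebraic.trans ℚ K (AlgebraicClosure K)
  haveI : IsAlgClosure ℚ (AlgebraicClosure K) := ⟨inferInstance, inferInstance⟩
  exact IsAlgClosure.isGalois ℚ (AlgebraicClosure K)

/-- the embedding of the absolute Galois group of `K` in that of the rational numbers -/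
noncomputable def emb (K : Type) [Field K] [NumberField K] : GK K →* Gal(AlgebraicClosure K/ℚ) :=
  AlgEquiv.restrictScalarsHom ℚ

theorem emb_inj : Function.Injective (emb K) := AlgEquiv.restrictScalarsHom_injective ℚ

theorem emb_apply (σ : GK K) (x : AlgebraicClosure K) : emb K σ x = σ x := rfl

theorem isOpen_map (H : Subgroup (GK K)) (hH : IsOpen (H : Set (GK K))) :
    IsOpen ((H.map (emb K)) : Set Gal(AlgebraicClosure K/ℚ)) := by
  have hH1 : (H : Set (GK K)) ∈ nhds 1 := hH.mem_nhds H.one_mem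
  obtain ⟨E, hE, hEH⟩ := (krullTopology_mem_nhds_one_iff K (AlgebraicClosure K) _).1 hH1
  haveI := hE
  haveI : FiniteDimensional ℚ (E.restrictScalars ℚ) :=
    (FiniteDimensional.trans ℚ K E : FiniteDimensional ℚ E)
  refine Subgroup.isOpen_mono (H₁ := (E.restrictScalars ℚ).fixingSubgroup) ?_
    (IntermediateField.fixingSubgroup_isOpen _)
  intro g hg
  rw [IntermediateField.mem_fixingSubgroup_iff] at hg
  have hK : ∀ x : K, g (algebraMap K (AlgebraicClosure K) x) = algebraMap K (AlgebraicClosure K) x :=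
    fun x => hg _ (E.algebraMap_mem x)
  let g' : GK K := AlgEquiv.ofRingEquiv (f := (g : AlgebraicClosure K ≃+* AlgebraicClosure K)) hK
  refine ⟨g', ?_, ?_⟩
  · apply hEH
    rw [SetLike.mem_coe, IntermediateField.mem_fixingSubgroup_iff]
    intro x hx
    exact hg x hx
  · apply AlgEquiv.ext
    intro x
    rfl

/-- **Hermite-Minkowski over a number field.** -/
theorem finite_open (S : Set (HeightOneSpectrum (𝓞 K))) (hS : S.Finite) (D : ℕ) :
    {H : Subgroup (GK K) | IsOpen (H : Set (GK K)) ∧ H.index ≤ D ∧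
      ∀ v ∉ S, ∀ σ, IsInert v σ → σ ∈ H}.Finite := by
  classical
  set Ω := AlgebraicClosure K with hΩ
  set R : Subgroup Gal(Ω/ℚ) := (emb K).range with hR
  have hRo : IsOpen (R : Set Gal(Ω/ℚ)) := by
    have h1 := isOpen_map (K := K) ⊤ isOpen_univ
    rwa [← MonoidHom.range_eq_map] at h1
  -- the exceptional prime numbers
  have hT1 := finite_ram' R hRo
  have hT2 : {p : ℕ | p.Prime ∧ ∃ v ∈ S, (p : 𝓞 K) ∈ v.asIdeal}.Finite := by
    have e : {p : ℕ | p.Prime ∧ ∃ v ∈ S, (p : 𝓞 K) ∈ v.asIdeal} =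
        ⋃ v ∈ S, {p : ℕ | p.Prime ∧ (p : 𝓞 K) ∈ v.asIdeal} := by
      ext p
      simp only [Set.mem_setOf_eq, Set.mem_iUnion, exists_prop]
      constructor
      · rintro ⟨hp, v, hv, h⟩
        exact ⟨v, hv, hp, h⟩
      · rintro ⟨v, hv, hp, h⟩
        exact ⟨hp, v, hv, h⟩
    rw [e]
    refine hS.biUnion fun v _ => ?_
    have h1 : v.asIdeal.comap (algebraMap ℤ (𝓞 K)) ≠ ⊥ := by
      have := Ideal.IsMaximal.ne_bot_of_isIntegral_int v.asIdeal
      obtain ⟨δ, hδ, hδ0⟩ := Submodule.exists_mem_ne_zero_of_ne_bot v.ne_bot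
      exact Ideal.comap_ne_bot_of_integral_mem hδ0 hδ (RingOfIntegers.isIntegral δ)
    obtain ⟨N, hN, hN0⟩ := Submodule.exists_mem_ne_zero_of_ne_bot h1
    refine (Set.finite_le_nat N.natAbs).subset ?_
    rintro p ⟨hp, hpQ⟩
    refine Nat.le_of_dvd (Int.natAbs_pos.2 hN0) ?_
    by_contra hcon
    have hcop : IsCoprime (p : ℤ) N := by
      rw [Int.isCoprime_iff_gcd_eq_one]
      exact (Nat.Prime.coprime_iff_not_dvd hp).2 hcon
    obtain ⟨a, b, hab⟩ := hcop
    apply v.isPrime.ne_top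
    rw [Ideal.eq_top_iff_one]
    have h2 : algebraMap ℤ (𝓞 K) (a * p + b * N) ∈ v.asIdeal := by
      rw [map_add, map_mul, map_mul, map_natCast]
      exact v.asIdeal.add_mem (v.asIdeal.mul_mem_left _ hpQ) (v.asIdeal.mul_mem_left _ hN)
    rwa [hab, map_one] at h2
  set T : Finset ℕ := (hT1.union hT2).toFinset with hT
  have hTp : ∀ p ∈ T, p.Prime := by
    intro p hp
    rw [hT, Set.Finite.mem_toFinset] at hp
    rcases hp with h | h
    · exact h.1
    · exact h.1
  have hfin := finite_normal Ω T hTp ((D * R.index).factorial)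
  haveI hRfi : R.FiniteIndex := fi_of_open R hRo
  refine Set.Finite.of_finite_image (f := fun H : Subgroup (GK K) => H.map (emb K))
    ((finite_above _ hfin ?_).subset ?_) ?_
  · rintro N ⟨h1, h2, -⟩
    exact ⟨h1, fi_of_open N h2⟩
  · rintro _ ⟨H, ⟨ho, hD, hI⟩, rfl⟩
    have hmo := isOpen_map H ho
    haveI hfi : (H.map (emb K)).FiniteIndex := fi_of_open _ hmo
    refine ⟨(H.map (emb K)).normalCore, ⟨inferInstance, ?_, ?_, ?_⟩, Subgroup.normalCore_le _⟩
    · refine Subgroup.isOpen_of_isClosed_of_finiteIndex _ ?_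
      exact Subgroup.normalCore_isClosed _ (Subgroup.isClosed_of_isOpen _ hmo)
    · refine core_index_le _ _ ?_
      rw [Subgroup.index_map_of_injective _ emb_inj]
      exact Nat.mul_le_mul_right _ hD
    · intro p hp hpT P hP hpP τ hτ
      have key : ∀ (P : Ideal (𝓞 Ω)), P.IsMaximal → (p : 𝓞 Ω) ∈ P → ∀ τ : Gal(Ω/ℚ),
          (∀ x : 𝓞 Ω, τ • x - x ∈ P) → τ ∈ H.map (emb K) := by
        intro P hP hpP τ hτ
        have hτR : τ ∈ R := by
          by_contra h
          apply hpT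
          rw [hT, Set.Finite.mem_toFinset]
          exact Or.inl ⟨hp, P, hP, hpP, τ, hτ, h⟩
        obtain ⟨σ, rfl⟩ := hτR
        refine ⟨σ, ?_, rfl⟩
        have hmax : (P.comap (algebraMap (𝓞 K) (𝓞 Ω))).IsMaximal :=
          Ideal.isMaximal_comap_of_isIntegral_of_isMaximal P
        have hne : P.comap (algebraMap (𝓞 K) (𝓞 Ω)) ≠ ⊥ := by
          intro h
          have h1 : (p : 𝓞 K) ∈ P.comap (algebraMap (𝓞 K) (𝓞 Ω)) := by
            rw [Ideal.mem_comap, map_natCast]
            exact hpP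
          rw [h, Ideal.mem_bot] at h1
          exact hp.ne_zero (by exact_mod_cast h1)
        let v : HeightOneSpectrum (𝓞 K) := ⟨_, hmax.isPrime, hne⟩
        refine hI v ?_ σ ⟨P, hP, rfl, fun x => hτ x⟩
        intro hv
        apply hpT
        rw [hT, Set.Finite.mem_toFinset]
        refine Or.inr ⟨hp, v, hv, ?_⟩
        show (p : 𝓞 K) ∈ P.comap (algebraMap (𝓞 K) (𝓞 Ω))
        rw [Ideal.mem_comap, map_natCast]
        exact hpP
      intro g
      show g * τ * g⁻¹ ∈ H.map (emb K)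
      refine key (g • P) ?_ ?_ _ ?_
      · have e : g • P = P.map (MulSemiringAction.toRingEquiv Gal(Ω/ℚ) (𝓞 Ω) g) := by
          rw [Ideal.pointwise_smul_def]
          rfl
        rw [e]
        exact Ideal.map_isMaximal_of_equiv _
      · rw [Ideal.mem_pointwise_smul_iff_inv_smul_mem]
        have : g⁻¹ • (p : 𝓞 Ω) = p := by
          apply RingOfIntegers.ext
          show g⁻¹ ((p : 𝓞 Ω) : Ω) = _
          push_cast
          exact map_natCast g⁻¹ p
        rw [this]
        exact hpP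
      · intro x
        rw [Ideal.mem_pointwise_smul_iff_inv_smul_mem, smul_sub, ← mul_smul]
        have e : g⁻¹ * (g * τ * g⁻¹) = τ * g⁻¹ := by group
        rw [e, mul_smul]
        exact hτ _
  · intro H _ H' _ h
    exact Subgroup.map_injective emb_inj h

end number_field

end Pool.Agent.H499.PW
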