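import Pool.Agent.H499.PW.Gal
import Pool.Agent.H499.CM.Back

/-! The quotients of the integers of the algebraic closure of `ℚ_ℓ` by principal ideals are local rings with totally
ordered ideals. -/

set_option autoImplicit false
set_option linter.all false

namespace Pool.Agent.H499.PW

open Module IsLocalRing Polynomial Matrix NumberField IsDedekindDomain
open Pool.Agent.W401.Cheb (GK IsFrob IsInert)
open Pool.Agent.H499.CM

variable {K : Type} [Field K] [NumberField K] {ℓ : ℕ} [Fact ℓ.Prime] {n : ℕ}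

/-- `r` has open kernel, is unramified outside `S`, and for `σ` in `U` the characteristic polynomial of `r σ` is
`(X - 1) ^ n` modulo the image of the maximal ideal. -/
def AdmMod {R : Type} [CommRing R] (S : Set (HeightOneSpectrum (𝓞 K))) (U : Subgroup (GK K)) (q : OO ℓ →+* R)
    (r : GK K →* GL (Fin n) R) : Prop :=
  IsOpen (r.ker : Set (GK K)) ∧ (∀ v ∉ S, ∀ σ, IsInert v σ → r σ = 1) ∧
    ∀ σ ∈ U, ∀ i, ∃ c : OO ℓ, ‖(c : PadicAlgCl ℓ)‖ < 1 ∧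
      ((r σ : Matrix (Fin n) (Fin n) R).charpoly - (X - 1) ^ n).coeff i = q c

/-- `ρ` is continuous, unramified outside `S`, and for `σ` in `U` the characteristic polynomial of `ρ σ` is
`(X - 1) ^ n` modulo the maximal ideal. -/
def AdmAdic (S : Set (HeightOneSpectrum (𝓞 K))) (U : Subgroup (GK K)) (ρ : GK K →* GL (Fin n) (PadicAlgCl ℓ)) :
    Prop :=
  Continuous ρ ∧ (∀ v ∉ S, ∀ σ, IsInert v σ → ρ σ = 1) ∧
    ∀ σ ∈ U, ∀ i, ‖((ρ σ : Matrix (Fin n) (Fin n) (PadicAlgCl ℓ)).charpoly - (X - 1) ^ n).coeff i‖ < 1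

section quotients

variable (c : OO ℓ)

theorem norm_natCast_ell_lt : ‖((ℓ : OO ℓ) : PadicAlgCl ℓ)‖ < 1 := by
  have e : ((ℓ : OO ℓ) : PadicAlgCl ℓ) = (ℓ : PadicAlgCl ℓ) := by push_cast; rfl
  rw [e]
  exact norm_ell_lt

theorem quot_nontrivial (hc : ‖(c : PadicAlgCl ℓ)‖ < 1) : Nontrivial (OO ℓ ⧸ Ideal.span {c}) := by
  refine Ideal.Quotient.nontrivial_iff.2 fun h => ?_
  rw [Ideal.span_singleton_eq_top] at h
  obtain ⟨u, hu⟩ := h
  have h1 : (1 : OO ℓ) = c * (u⁻¹ : (OO ℓ)ˣ) := by rw [← hu]; exact (Units.mul_inv u).symm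
  have h2 := congrArg (fun x : OO ℓ => ‖(x : PadicAlgCl ℓ)‖) h1
  have e : ((c * ((u⁻¹ : (OO ℓ)ˣ) : OO ℓ) : OO ℓ) : PadicAlgCl ℓ) = (c : PadicAlgCl ℓ) * ((u⁻¹ : (OO ℓ)ˣ) : OO ℓ) := rfl
  have e1 : ((1 : OO ℓ) : PadicAlgCl ℓ) = 1 := rfl
  simp only [e, e1, norm_one, norm_mul] at h2
  have h3 := norm_coe_le ((u⁻¹ : (OO ℓ)ˣ) : OO ℓ)
  nlinarith [norm_nonneg (c : PadicAlgCl ℓ), norm_nonneg ((((u⁻¹ : (OO ℓ)ˣ) : OO ℓ)) : PadicAlgCl ℓ)]

theorem quot_local (hc : ‖(c : PadicAlgCl ℓ)‖ < 1) : IsLocalRing (OO ℓ ⧸ Ideal.span {c}) := by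
  haveI := quot_nontrivial c hc
  exact IsLocalRing.of_surjective' (Ideal.Quotient.mk (Ideal.span {c})) Ideal.Quotient.mk_surjective

theorem quot_chain (a b : OO ℓ ⧸ Ideal.span {c}) : a ∣ b ∨ b ∣ a := by
  obtain ⟨a, rfl⟩ := Ideal.Quotient.mk_surjective a
  obtain ⟨b, rfl⟩ := Ideal.Quotient.mk_surjective b
  rcases total a b with h | h
  · exact Or.inl (map_dvd _ h)
  · exact Or.inr (map_dvd _ h)

theorem mk_mem_max (hc : ‖(c : PadicAlgCl ℓ)‖ < 1) [IsLocalRing (OO ℓ ⧸ Ideal.span {c})] (x : OO ℓ)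
    (hx : ‖(x : PadicAlgCl ℓ)‖ < 1) : Ideal.Quotient.mk (Ideal.span {c}) x ∈ maximalIdeal (OO ℓ ⧸ Ideal.span {c}) := by
  rw [IsLocalRing.mem_maximalIdeal, mem_nonunits_iff]
  rintro ⟨u, hu⟩
  obtain ⟨y, hy⟩ := Ideal.Quotient.mk_surjective ((u⁻¹ : (OO ℓ ⧸ Ideal.span {c})ˣ) : OO ℓ ⧸ Ideal.span {c})
  have h1 : Ideal.Quotient.mk (Ideal.span {c}) (x * y - 1) = 0 := by
    rw [map_sub, map_mul, map_one, hy, ← hu, Units.mul_inv, sub_self]
  rw [Ideal.Quotient.eq_zero_iff_mem, Ideal.mem_span_singleton, dvd_iff] at h1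
  have e : ((x * y - 1 : OO ℓ) : PadicAlgCl ℓ) = (x : PadicAlgCl ℓ) * y - 1 := rfl
  rw [e] at h1
  have h2 : ‖(x : PadicAlgCl ℓ) * y - 1‖ < 1 := lt_of_le_of_lt h1 hc
  have h3 : ‖(x : PadicAlgCl ℓ) * y‖ < 1 := by
    rw [norm_mul]
    have := norm_coe_le y
    nlinarith [norm_nonneg (x : PadicAlgCl ℓ), norm_nonneg (y : PadicAlgCl ℓ)]
  have h4 : ‖(1 : PadicAlgCl ℓ)‖ ≤ max ‖(x : PadicAlgCl ℓ) * y - 1‖ ‖(x : PadicAlgCl ℓ) * y‖ := by
    have e : (1 : PadicAlgCl ℓ) = -((x : PadicAlgCl ℓ) * y - 1) + (x : PadicAlgCl ℓ) * y := by ring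
    conv_lhs => rw [e]
    refine (IsUltrametricDist.norm_add_le_max _ _).trans ?_
    rw [norm_neg]
  rw [norm_one] at h4
  rcases le_max_iff.1 h4 with h | h
  · linarith
  · linarith

end quotients

theorem norm_pow_ell_lt {m : ℕ} (hm : 1 ≤ m) : ‖(((ℓ : OO ℓ) ^ m : OO ℓ) : PadicAlgCl ℓ)‖ < 1 := by
  rw [coe_pow_ell, norm_pow]
  exact pow_lt_one₀ (norm_nonneg _) norm_ell_lt (by omega)

/-- finite determination modulo `ℓ ^ m` -/
theorem determ_mod {S : Set (HeightOneSpectrum (𝓞 K))} {U : Subgroup (GK K)} {P : Finset (HeightOneSpectrum (𝓞 K))}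
    (hP : ∀ (A : Type) [CommRing A] [IsLocalRing A], (∀ a b : A, a ∣ b ∨ b ∣ a) → (ℓ : A) ∈ maximalIdeal A →
        ∀ r r' : GK K →* GL (Fin n) A, Adm S U r → Adm S U r' →
          (∀ v ∈ P, ∀ σ, IsFrob v σ → (r σ⁻¹ : Matrix (Fin n) (Fin n) A).trace =
            (r' σ⁻¹ : Matrix (Fin n) (Fin n) A).trace) →
          ∀ σ, (r σ : Matrix (Fin n) (Fin n) A).trace = (r' σ : Matrix (Fin n) (Fin n) A).trace)
    (m : ℕ) (r r' : GK K →* GL (Fin n) (RR ℓ m)) (hr : AdmMod S U (mk m) r) (hr' : AdmMod S U (mk m) r')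
    (h : ∀ v ∈ P, ∀ σ, IsFrob v σ → (r σ⁻¹ : Matrix (Fin n) (Fin n) (RR ℓ m)).trace =
            (r' σ⁻¹ : Matrix (Fin n) (Fin n) (RR ℓ m)).trace) (σ : GK K) :
    (r σ : Matrix (Fin n) (Fin n) (RR ℓ m)).trace = (r' σ : Matrix (Fin n) (Fin n) (RR ℓ m)).trace := by
  rcases Nat.eq_zero_or_pos m with rfl | hm
  · haveI : Subsingleton (RR ℓ 0) := by
      refine Ideal.Quotient.subsingleton_iff.2 ?_
      rw [pow_zero, Ideal.span_singleton_one]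
    exact Subsingleton.elim _ _
  · have hc := norm_pow_ell_lt (ℓ := ℓ) hm
    haveI : IsLocalRing (RR ℓ m) := quot_local _ hc
    have hmax : ∀ x : OO ℓ, ‖(x : PadicAlgCl ℓ)‖ < 1 → mk m x ∈ maximalIdeal (RR ℓ m) := fun x hx =>
      mk_mem_max _ hc x hx
    have key : ∀ r : GK K →* GL (Fin n) (RR ℓ m), AdmMod S U (mk m) r → Adm S U r := by
      intro r hr
      refine ⟨hr.1, hr.2.1, fun σ hσ i => ?_⟩
      obtain ⟨c, hc1, hc2⟩ := hr.2.2 σ hσ i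
      rw [hc2]
      exact hmax c hc1
    refine hP (RR ℓ m) (quot_chain _) ?_ r r' (key r hr) (key r' hr') h σ
    have h1 := hmax (ℓ : OO ℓ) norm_natCast_ell_lt
    rwa [map_natCast] at h1

end Pool.Agent.H499.PW
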