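import Pool.Agent.H499.PW.Filt

/-! Reduction of the module spanned by the image of a group. -/

set_option autoImplicit false
set_option linter.all false

namespace Pool.Agent.H499.PW

open Module IsLocalRing Polynomial

section red

variable {A M : Type*} [CommRing A] [AddCommGroup M] [Module A M] (I : Ideal A)

theorem le_comap (f : Module.End A M) : (I • ⊤ : Submodule A M) ≤ (I • ⊤ : Submodule A M).comap f := by
  rw [← Submodule.map_le_iff_le_comap, Submodule.map_smul'']
  exact Submodule.smul_mono le_rfl le_top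

/-- over `A` -/
def red0 (f : Module.End A M) : (M ⧸ (I • ⊤ : Submodule A M)) →ₗ[A] (M ⧸ (I • ⊤ : Submodule A M)) :=
  (I • ⊤ : Submodule A M).mapQ (I • ⊤) f (le_comap I f)

theorem red0_smul (f : Module.End A M) (c : A ⧸ I) (w : M ⧸ (I • ⊤ : Submodule A M)) :
    red0 I f (c • w) = c • red0 I f w := by
  obtain ⟨a, rfl⟩ := Ideal.Quotient.mk_surjective c
  obtain ⟨m, rfl⟩ := Submodule.mkQ_surjective _ w
  rw [Submodule.mkQ_apply, Module.Quotient.mk_smul_mk]
  have h1 : red0 I f (Submodule.Quotient.mk (a • m)) = Submodule.Quotient.mk (f (a • m)) := rfl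
  have h2 : red0 I f (Submodule.Quotient.mk m) = Submodule.Quotient.mk (f m) := rfl
  rw [h1, h2, map_smul, Module.Quotient.mk_smul_mk]

/-- over the quotient -/
def red1 (f : Module.End A M) : Module.End (A ⧸ I) (M ⧸ (I • ⊤ : Submodule A M)) where
  toFun := red0 I f
  map_add' := (red0 I f).map_add
  map_smul' := red0_smul I f

theorem red1_mk (f : Module.End A M) (m : M) :
    red1 I f (Submodule.Quotient.mk m) = Submodule.Quotient.mk (f m) := rfl

/-- the reduction of endomorphisms modulo an ideal -/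
def redEnd : Module.End A M →* Module.End (A ⧸ I) (M ⧸ (I • ⊤ : Submodule A M)) where
  toFun := red1 I
  map_one' := by
    apply LinearMap.ext
    intro w
    obtain ⟨m, rfl⟩ := Submodule.mkQ_surjective _ w
    rw [Submodule.mkQ_apply, red1_mk]
    rfl
  map_mul' f g := by
    apply LinearMap.ext
    intro w
    obtain ⟨m, rfl⟩ := Submodule.mkQ_surjective _ w
    rw [Submodule.mkQ_apply, red1_mk]
    rfl

theorem redEnd_mk (f : Module.End A M) (m : M) :
    redEnd I f (Submodule.Quotient.mk m) = Submodule.Quotient.mk (f m) := rfl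

end red

section local_ring

variable {A : Type*} [CommRing A] [IsLocalRing A] {B : Type*} [Ring B] [Algebra A B] {G : Type*} [Group G]

/-- the module spanned by the image of the group -/
def MM (A : Type*) {B G : Type*} [CommRing A] [Ring B] [Algebra A B] [Group G] (y : G →* B) : Submodule A B :=
  Submodule.span A (Set.range y)

theorem mem_MM (y : G →* B) (g : G) : y g ∈ MM A y := Submodule.subset_span ⟨g, rfl⟩

theorem mul_mem_MM (y : G →* B) (g : G) (w : B) (hw : w ∈ MM A y) : y g * w ∈ MM A y := by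
  have h1 : LinearMap.mulLeft A (y g) w ∈ (MM A y).map (LinearMap.mulLeft A (y g)) :=
    Submodule.mem_map_of_mem hw
  rw [MM, Submodule.map_span] at h1
  refine (Submodule.span_mono ?_) h1
  rintro _ ⟨_, ⟨h, rfl⟩, rfl⟩
  exact ⟨g * h, map_mul y g h⟩

/-- multiplication from the left -/
def lft (y : G →* B) : G →* Module.End A (MM A y) where
  toFun g := (LinearMap.mulLeft A (y g)).restrict (fun w hw => mul_mem_MM y g w hw)
  map_one' := by
    ext w
    show y 1 * (w : B) = w
    rw [map_one, one_mul]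
  map_mul' g h := by
    ext w
    show y (g * h) * (w : B) = y g * (y h * w)
    rw [map_mul, mul_assoc]

theorem lft_coe (y : G →* B) (g : G) (w : MM A y) : ((lft y g w : MM A y) : B) = y g * w := rfl

/-- the action on the reduction -/
def psi (y : G →* B) : G →* Module.End (A ⧸ maximalIdeal A) (MM A y ⧸ (maximalIdeal A • ⊤ : Submodule A (MM A y))) :=
  (redEnd (maximalIdeal A)).comp (lft y)

theorem psi_mk (y : G →* B) (g : G) (w : MM A y) :
    psi y g (Submodule.Quotient.mk w) = Submodule.Quotient.mk (lft y g w) := rfl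

/-- the condition of unipotence modulo the maximal ideal -/
def UnipAt (A : Type*) {B G : Type*} [CommRing A] [IsLocalRing A] [Ring B] [Algebra A B] [Group G]
    (y : G →* B) (g : G) : Prop :=
  ∃ (Q : A[X]) (m : ℕ), (∀ i, Q.coeff i ∈ maximalIdeal A) ∧ (y g - 1) ^ m = aeval (y g) Q

theorem unip_pow (y : G →* B) (g : G) (w : MM A y) (m : ℕ) :
    ∃ h : (y g - 1) ^ m * (w : B) ∈ MM A y,
      ((psi y g - 1) ^ m) (Submodule.Quotient.mk w) = Submodule.Quotient.mk ⟨_, h⟩ := by
  induction m with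
  | zero =>
    refine ⟨by rw [pow_zero, one_mul]; exact w.2, ?_⟩
    rw [pow_zero]
    show Submodule.Quotient.mk w = _
    congr 1
    apply Subtype.ext
    show (w : B) = (y g - 1) ^ 0 * w
    rw [pow_zero, one_mul]
  | succ m ih =>
    obtain ⟨h, hm⟩ := ih
    have h2 : (y g - 1) ^ (m + 1) * (w : B) ∈ MM A y := by
      rw [pow_succ', mul_assoc, sub_mul, one_mul]
      exact (MM A y).sub_mem (mul_mem_MM y g _ h) h
    refine ⟨h2, ?_⟩
    rw [pow_succ', Module.End.mul_apply, hm, LinearMap.sub_apply, psi_mk]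
    show _ - Submodule.Quotient.mk _ = _
    rw [← Submodule.Quotient.mk_sub]
    congr 1
    apply Subtype.ext
    show y g * ((y g - 1) ^ m * (w : B)) - (y g - 1) ^ m * w = (y g - 1) ^ (m + 1) * w
    rw [pow_succ', mul_assoc, sub_mul, one_mul]

theorem aeval_mem (y : G →* B) (g : G) (w : MM A y) (Q : A[X]) (hQ : ∀ i, Q.coeff i ∈ maximalIdeal A) :
    ∃ h : aeval (y g) Q * (w : B) ∈ MM A y,
      (⟨_, h⟩ : MM A y) ∈ (maximalIdeal A • ⊤ : Submodule A (MM A y)) := by
  have key : ∀ i, (y g) ^ i * (w : B) ∈ MM A y := by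
    intro i
    rw [← map_pow]
    exact mul_mem_MM y _ _ w.2
  have e : aeval (y g) Q * (w : B) =
      ((∑ i ∈ Q.support, Q.coeff i • (⟨_, key i⟩ : MM A y) : MM A y) : B) := by
    rw [Polynomial.aeval_eq_sum_range, Finset.sum_mul, Submodule.coe_sum]
    have h1 : ∀ i ∈ Finset.range (Q.natDegree + 1), i ∉ Q.support →
        ((Q.coeff i • (⟨_, key i⟩ : MM A y) : MM A y) : B) = 0 := by
      intro i _ hi
      rw [Polynomial.notMem_support_iff.1 hi, zero_smul]
      rfl
    rw [Finset.sum_subset (Polynomial.supp_subset_range_natDegree_succ) h1]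
    refine Finset.sum_congr rfl fun i _ => ?_
    rw [smul_mul_assoc]
    rfl
  refine ⟨by rw [e]; exact Subtype.mem _, ?_⟩
  have e2 : (⟨aeval (y g) Q * (w : B), by rw [e]; exact Subtype.mem _⟩ : MM A y) =
      ∑ i ∈ Q.support, Q.coeff i • (⟨_, key i⟩ : MM A y) := Subtype.ext e
  rw [e2]
  exact Submodule.sum_mem _ fun i _ => Submodule.smul_mem_smul (hQ i) Submodule.mem_top

variable {ℓ : ℕ} [Fact ℓ.Prime]

theorem pow_unip {k R : Type*} [Field k] [CharP k ℓ] [Ring R] [Algebra k R] (x : R) (m : ℕ)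
    (h : (x - 1) ^ m = 0) : ∃ e : ℕ, x ^ (ℓ ^ e) = 1 := by
  haveI : ExpChar k ℓ := ExpChar.prime (Fact.out : ℓ.Prime)
  obtain ⟨e, he⟩ : ∃ e : ℕ, m ≤ ℓ ^ e := ⟨m, (Nat.lt_pow_self (Fact.out : ℓ.Prime).one_lt).le⟩
  refine ⟨e, ?_⟩
  have h3 : ((X : k[X]) + 1) ^ (ℓ ^ e) = X ^ (ℓ ^ e) + 1 := by
    rw [add_pow_expChar_pow, one_pow]
  have h4 := congrArg (aeval (x - 1)) h3
  rw [map_pow, map_add, map_add, map_pow, map_one, aeval_X, sub_add_cancel] at h4
  rw [h4]
  have h5 : (x - 1) ^ (ℓ ^ e) = 0 := pow_eq_zero_of_le he h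
  rw [h5, zero_add]

theorem charP_res (hℓ : (ℓ : A) ∈ maximalIdeal A) : CharP (A ⧸ maximalIdeal A) ℓ := by
  have h2 : ((ℓ : ℕ) : A ⧸ maximalIdeal A) = 0 := by
    rw [← map_natCast (Ideal.Quotient.mk (maximalIdeal A)), Ideal.Quotient.eq_zero_iff_mem]
    exact hℓ
  letI : Field (A ⧸ maximalIdeal A) := Ideal.Quotient.field _
  exact (CharP.charP_iff_prime_eq_zero (Fact.out : ℓ.Prime)).2 h2

theorem psi_nil (y : G →* B) (g : G) (Q : A[X]) (m : ℕ) (hQ : ∀ i, Q.coeff i ∈ maximalIdeal A)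
    (hm : (y g - 1) ^ m = aeval (y g) Q) : (psi (A := A) y g - 1) ^ m = 0 := by
  apply LinearMap.ext
  intro w
  obtain ⟨w, rfl⟩ := Submodule.mkQ_surjective _ w
  obtain ⟨h, hw⟩ := unip_pow y g w m
  obtain ⟨h', hw'⟩ := aeval_mem y g w Q hQ
  have e : (⟨(y g - 1) ^ m * (w : B), h⟩ : MM A y) = ⟨aeval (y g) Q * (w : B), h'⟩ := by
    apply Subtype.ext
    show (y g - 1) ^ m * (w : B) = aeval (y g) Q * (w : B)
    rw [hm]
  rw [Submodule.mkQ_apply, hw, e, LinearMap.zero_apply]
  exact (Submodule.Quotient.mk_eq_zero _).2 hw'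

theorem psi_pow (hℓ : (ℓ : A) ∈ maximalIdeal A) (y : G →* B) (g : G) (hg : UnipAt A y g) :
    ∃ e : ℕ, psi (A := A) y g ^ (ℓ ^ e) = 1 := by
  obtain ⟨Q, m, hQ, hm⟩ := hg
  have h1 := psi_nil y g Q m hQ hm
  haveI := charP_res hℓ
  letI : Field (A ⧸ maximalIdeal A) := Ideal.Quotient.field _
  exact pow_unip (k := A ⧸ maximalIdeal A) (psi (A := A) y g) m h1

end local_ring

end Pool.Agent.H499.PW
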